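import Mathlib
import Pool.Agent.H154R3.Task469B

set_option autoImplicit false

/-! # Integers without prime factors up to `T(n)`: counts in short intervals -/

open Finset

namespace Pool.Agent.U839.Sv

/-- the primes up to `t` -/
def Pr (t : ℕ) : Finset ℕ := (Icc 1 t).filter Nat.Prime

theorem mem_Pr {t p : ℕ} : p ∈ Pr t ↔ p.Prime ∧ p ≤ t := by
  unfold Pr
  rw [mem_filter, mem_Icc]
  constructor
  · rintro ⟨⟨-, h2⟩, h3⟩; exact ⟨h3, h2⟩
  · rintro ⟨h1, h2⟩; exact ⟨⟨h1.one_lt.le, h2⟩, h1⟩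

/-- `W t = ∏_{p ≤ t} (1 - 1/p)⁻¹` -/
noncomputable def W (t : ℕ) : ℝ := ∏ p ∈ (Icc 1 t).filter Nat.Prime, (1 - 1 / (p : ℝ))⁻¹

theorem W_eq (t : ℕ) : W t = ∏ p ∈ Pr t, (1 - 1 / (p : ℝ))⁻¹ := rfl

theorem one_sub_pos {p : ℕ} (hp : p.Prime) : 0 < 1 - 1 / (p : ℝ) := by
  have h1 : (1 : ℝ) < p := by exact_mod_cast hp.one_lt
  rw [sub_pos, div_lt_one (by linarith)]
  exact h1

theorem one_sub_le {p : ℕ} : 1 - 1 / (p : ℝ) ≤ 1 := by
  have : 0 ≤ 1 / (p : ℝ) := by positivity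
  linarith

theorem prod_pos' {S : Finset ℕ} (hS : ∀ p ∈ S, p.Prime) : 0 < ∏ p ∈ S, (1 - 1 / (p : ℝ)) :=
  prod_pos fun p hp => one_sub_pos (hS p hp)

theorem W_pos (t : ℕ) : 0 < W t := by
  rw [W_eq]
  exact prod_pos fun p hp => inv_pos.2 (one_sub_pos (mem_Pr.1 hp).1)

theorem W_ge_one (t : ℕ) : 1 ≤ W t := by
  rw [W_eq]
  have : ∏ p ∈ Pr t, (1 : ℝ) ≤ ∏ p ∈ Pr t, (1 - 1 / (p : ℝ))⁻¹ := by
    apply prod_le_prod (fun _ _ => zero_le_one)
    intro p hp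
    exact (one_le_inv₀ (one_sub_pos (mem_Pr.1 hp).1)).2 one_sub_le
  simpa using this

theorem Pr_succ (t : ℕ) : Pr (t + 1) = if (t + 1).Prime then insert (t + 1) (Pr t) else Pr t := by
  ext p
  split_ifs with h
  · rw [mem_insert, mem_Pr, mem_Pr]
    constructor
    · rintro ⟨h1, h2⟩
      rcases Nat.lt_or_ge t p with h3 | h3
      · left; omega
      · right; exact ⟨h1, h3⟩
    · rintro (h1 | ⟨h1, h2⟩)
      · rw [h1]; exact ⟨h, le_rfl⟩
      · exact ⟨h1, by omega⟩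
  · rw [mem_Pr, mem_Pr]
    constructor
    · rintro ⟨h1, h2⟩
      refine ⟨h1, ?_⟩
      rcases Nat.lt_or_ge t p with h3 | h3
      · exfalso; apply h
        have : p = t + 1 := by omega
        rw [← this]; exact h1
      · exact h3
    · rintro ⟨h1, h2⟩
      exact ⟨h1, by omega⟩

theorem W_mono {s t : ℕ} (h : s ≤ t) : W s ≤ W t := by
  rw [W_eq, W_eq]
  have hsub : Pr s ⊆ Pr t := by
    intro p hp
    rw [mem_Pr] at hp ⊢
    exact ⟨hp.1, hp.2.trans h⟩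
  rw [← prod_sdiff hsub]
  have h1 : (1 : ℝ) ≤ ∏ p ∈ Pr t \ Pr s, (1 - 1 / (p : ℝ))⁻¹ := by
    have : ∏ p ∈ Pr t \ Pr s, (1 : ℝ) ≤ ∏ p ∈ Pr t \ Pr s, (1 - 1 / (p : ℝ))⁻¹ := by
      apply prod_le_prod (fun _ _ => zero_le_one)
      intro p hp
      exact (one_le_inv₀ (one_sub_pos (mem_Pr.1 (mem_sdiff.1 hp).1).1)).2 one_sub_le
    simpa using this
  have h2 : 0 < ∏ p ∈ Pr s, (1 - 1 / (p : ℝ))⁻¹ := W_pos s
  nlinarith

theorem W_le (t : ℕ) (ht : 1 ≤ t) : W t ≤ t := by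
  induction t, ht using Nat.le_induction with
  | base =>
    rw [W_eq]
    have : Pr 1 = ∅ := by decide
    rw [this]; simp
  | succ t ht ih =>
    have ht0 : (0 : ℝ) < t := by exact_mod_cast ht
    rw [W_eq, Pr_succ]
    split_ifs with h
    · rw [prod_insert (by rw [mem_Pr]; omega), ← W_eq]
      have h1 : (1 - 1 / ((t + 1 : ℕ) : ℝ))⁻¹ = (t + 1) / t := by
        have h2 : (1 - 1 / ((t + 1 : ℕ) : ℝ)) = t / (t + 1) := by
          push_cast
          field_simp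
          ring
        rw [h2, inv_div]
      rw [h1]
      push_cast
      calc ((t : ℝ) + 1) / t * W t ≤ (t + 1) / t * t := by gcongr
        _ = t + 1 := by field_simp
    · rw [← W_eq]
      push_cast
      linarith

/-- size of the error term -/
noncomputable def Er (R t : ℕ) : ℝ := ((max t 2 : ℕ) : ℝ) ^ (8 * R + 16)

theorem Er_mono {R s t : ℕ} (h : s ≤ t) : Er R s ≤ Er R t := by
  unfold Er
  apply pow_le_pow_left₀ (by positivity)
  exact_mod_cast max_le_max h le_rfl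

theorem Er_nonneg (R t : ℕ) : 0 ≤ Er R t := by unfold Er; positivity

theorem exists_level (t : ℕ) : ∃ I : ℕ, 1 ≤ I ∧ t ≤ 2 ^ 2 ^ I ∧ 2 ^ 2 ^ I ≤ (max t 2) ^ 2 := by
  have hex : ∃ I : ℕ, t ≤ 2 ^ 2 ^ I := ⟨t, by
    have h1 : t < 2 ^ t := Nat.lt_two_pow_self
    have h2 : 2 ^ t ≤ 2 ^ 2 ^ t := Nat.pow_le_pow_right (by norm_num) h1.le
    omega⟩
  classical
  by_cases h4 : t ≤ 4
  · refine ⟨1, le_rfl, by norm_num; exact h4, ?_⟩
    have : 2 ≤ max t 2 := le_max_right _ _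
    calc 2 ^ 2 ^ 1 = 2 ^ 2 := by norm_num
      _ ≤ (max t 2) ^ 2 := Nat.pow_le_pow_left this 2
  · push Not at h4
    obtain ⟨I, hI⟩ : ∃ I, I = Nat.find hex := ⟨_, rfl⟩
    have h1 : t ≤ 2 ^ 2 ^ I := by rw [hI]; exact Nat.find_spec hex
    have h2 : 2 ≤ I := by
      by_contra hcon
      push Not at hcon
      have h5 : 2 ^ 2 ^ I ≤ 2 ^ 2 ^ 1 :=
        Nat.pow_le_pow_right (by norm_num) (Nat.pow_le_pow_right (by norm_num) (by omega))
      omega
    have h3 : ¬ t ≤ 2 ^ 2 ^ (I - 1) := Nat.find_min hex (by omega)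
    push Not at h3
    refine ⟨I, by omega, h1, ?_⟩
    have h5 : 2 ^ 2 ^ I = (2 ^ 2 ^ (I - 1)) ^ 2 := by
      rw [← pow_mul, ← pow_succ]
      congr 2
      omega
    rw [h5]
    apply Nat.pow_le_pow_left
    exact h3.le.trans (le_max_left _ _)

/-- the fundamental lemma in the form used here -/
theorem fund (R : ℕ) (hR : 13 ≤ R) (t : ℕ) (S : Finset ℕ) (hS : ∀ p ∈ S, p.Prime ∧ p ≤ t) (A k : ℕ) :
    |(((Ioc A (A + k)).filter (fun n => ∀ p ∈ S, ¬ p ∣ n)).card : ℝ) -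
        (∏ p ∈ S, (1 - 1 / (p : ℝ))) * k| ≤
      2 ^ 25 * (1 / 2) ^ (2 * R) * ((∏ p ∈ S, (1 - 1 / (p : ℝ))) * k) + Er R t := by
  obtain ⟨I, h1, h2, h3⟩ := exists_level t
  have h := Pool.Agent.H154R3.Fund.sieve_two S (fun p hp => (hS p hp).1) R hR I h1
    (fun p hp => (hS p hp).2.trans h2) A k
  have hdn : ∀ p : ℕ, Pool.Agent.H446R2.dn p = 1 / (p : ℝ) := fun p => rfl
  simp only [hdn] at h
  refine h.trans ?_
  have h4 : (2 : ℝ) ^ ((4 * R + 8) * 2 ^ I) ≤ Er R t := by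
    unfold Er
    have h5 : (2 : ℝ) ^ ((4 * R + 8) * 2 ^ I) = ((2 ^ 2 ^ I : ℕ) : ℝ) ^ (4 * R + 8) := by
      push_cast
      rw [← pow_mul]
      congr 1
      ring
    rw [h5]
    calc ((2 ^ 2 ^ I : ℕ) : ℝ) ^ (4 * R + 8) ≤ (((max t 2) ^ 2 : ℕ) : ℝ) ^ (4 * R + 8) := by
          apply pow_le_pow_left₀ (by positivity)
          exact_mod_cast h3
      _ = ((max t 2 : ℕ) : ℝ) ^ (8 * R + 16) := by
          push_cast
          rw [← pow_mul]
          congr 1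
          ring
  have e1 : 2 * ((2 : ℝ) ^ 24 * (1 / 2) ^ (2 * R)) * (∏ p ∈ S, (1 - 1 / (p : ℝ))) * k =
      2 ^ 25 * (1 / 2) ^ (2 * R) * ((∏ p ∈ S, (1 - 1 / (p : ℝ))) * k) := by ring
  rw [e1]
  linarith

/-- initial parts of an interval -/
theorem down (J K : ℕ) (S : Finset ℕ) (hS : S ⊆ Ioc J (J + K))
    (h : ∀ j ∈ S, ∀ i, J < i → i ≤ j → i ∈ S) : S = Ioc J (J + S.card) := by
  rcases S.eq_empty_or_nonempty with h0 | h0
  · rw [h0]; simp
  · obtain ⟨m, hm⟩ : ∃ m, m = S.max' h0 := ⟨_, rfl⟩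
    have hmS : m ∈ S := by rw [hm]; exact S.max'_mem h0
    have hmJ := mem_Ioc.1 (hS hmS)
    have h1 : S = Ioc J m := by
      ext i
      rw [mem_Ioc]
      constructor
      · intro hi
        exact ⟨(mem_Ioc.1 (hS hi)).1, by rw [hm]; exact S.le_max' i hi⟩
      · rintro ⟨h2, h3⟩
        exact h m hmS i h2 h3
    have h2 : S.card = m - J := by rw [h1, Nat.card_Ioc]
    rw [h2]
    have : J + (m - J) = m := by omega
    rw [this]
    exact h1

/-- level sets of a monotone function -/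
theorem level (g : ℕ → ℕ) (hg : Monotone g) (J K t : ℕ) : ∃ a k : ℕ,
    (Ioc J (J + K)).filter (fun j => g j = t) = Ioc a (a + k) ∧
    k = ((Ioc J (J + K)).filter (fun j => g j = t)).card := by
  obtain ⟨S1, hS1⟩ : ∃ S1, S1 = (Ioc J (J + K)).filter (fun j => g j < t) := ⟨_, rfl⟩
  obtain ⟨S2, hS2⟩ : ∃ S2, S2 = (Ioc J (J + K)).filter (fun j => g j ≤ t) := ⟨_, rfl⟩
  have h1 := down J K S1 (by rw [hS1]; exact filter_subset _ _) (by
    intro j hj i h1 h2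
    rw [hS1, mem_filter, mem_Ioc] at hj ⊢
    exact ⟨⟨h1, h2.trans hj.1.2⟩, (hg h2).trans_lt hj.2⟩)
  have h2 := down J K S2 (by rw [hS2]; exact filter_subset _ _) (by
    intro j hj i h1 h2
    rw [hS2, mem_filter, mem_Ioc] at hj ⊢
    exact ⟨⟨h1, h2.trans hj.1.2⟩, (hg h2).trans hj.2⟩)
  have h3 : S1 ⊆ S2 := by
    intro j hj
    rw [hS1, mem_filter] at hj
    rw [hS2, mem_filter]
    exact ⟨hj.1, hj.2.le⟩
  have h4 := card_le_card h3
  obtain ⟨c1, hc1⟩ : ∃ c1, c1 = S1.card := ⟨_, rfl⟩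
  obtain ⟨c2, hc2⟩ : ∃ c2, c2 = S2.card := ⟨_, rfl⟩
  rw [← hc1] at h1 h4
  rw [← hc2] at h2 h4
  have h5 : (Ioc J (J + K)).filter (fun j => g j = t) = Ioc (J + c1) (J + c2) := by
    ext j
    have e1 : j ∈ S1 ↔ j ∈ Ioc J (J + c1) := by rw [← h1]
    have e2 : j ∈ S2 ↔ j ∈ Ioc J (J + c2) := by rw [← h2]
    rw [hS1, mem_filter, mem_Ioc, mem_Ioc] at e1
    rw [hS2, mem_filter, mem_Ioc, mem_Ioc] at e2
    rw [mem_filter, mem_Ioc, mem_Ioc]
    constructor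
    · rintro ⟨g1, g2⟩
      have g3 := e2.1 ⟨g1, g2.le⟩
      have g4 : ¬ (J < j ∧ j ≤ J + c1) := fun hh => by
        have := (e1.2 hh).2
        omega
      omega
    · rintro ⟨g1, g2⟩
      have g3 := e2.2 ⟨by omega, g2⟩
      refine ⟨g3.1, ?_⟩
      have g4 : ¬ ((J < j ∧ j ≤ J + K) ∧ g j < t) := fun hh => by
        have := (e1.1 hh).2
        omega
      have g5 : ¬ g j < t := fun hh => g4 ⟨g3.1, hh⟩
      omega
  refine ⟨J + c1, c2 - c1, ?_, ?_⟩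
  · rw [h5]
    congr 1
    omega
  · rw [h5, Nat.card_Ioc]
    omega

open Classical in
/-- the weight of `j`: `W (g j)` if `j + u` has no prime factor `p ≤ g j` outside `P` -/
noncomputable def wt (g : ℕ → ℕ) (P : Finset ℕ) (u j : ℕ) : ℝ :=
  if ∀ p, p.Prime → p ≤ g j → p ∉ P → ¬ p ∣ j + u then W (g j) else 0

/-- sum of the weights over an interval -/
theorem stretch (R : ℕ) (hR : 13 ≤ R) (g : ℕ → ℕ) (hg : Monotone g) (P : Finset ℕ)
    (hP : ∀ p ∈ P, p.Prime) (u J K : ℕ) (hPg : ∀ j, J < j → ∀ p ∈ P, p ≤ g j) :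
    |∑ j ∈ Ioc J (J + K), wt g P u j - (∏ p ∈ P, (1 - 1 / (p : ℝ)))⁻¹ * K| ≤
      2 ^ 25 * (1 / 2) ^ (2 * R) * ((∏ p ∈ P, (1 - 1 / (p : ℝ)))⁻¹ * K) +
        (g (J + K) + 1) * (W (g (J + K)) * Er R (g (J + K))) := by
  classical
  obtain ⟨B, hB⟩ : ∃ B, B = ∏ p ∈ P, (1 - 1 / (p : ℝ)) := ⟨_, rfl⟩
  obtain ⟨τ, hτ⟩ : ∃ τ, τ = g (J + K) := ⟨_, rfl⟩
  obtain ⟨ε, hε⟩ : ∃ ε : ℝ, ε = 2 ^ 25 * (1 / 2) ^ (2 * R) := ⟨_, rfl⟩
  have hBpos : 0 < B := by rw [hB]; exact prod_pos' hP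
  rw [← hB, ← hτ, ← hε]
  obtain ⟨L, hL⟩ : ∃ L : ℕ → Finset ℕ, L = fun t => (Ioc J (J + K)).filter (fun j => g j = t) :=
    ⟨_, rfl⟩
  -- decomposition
  have hmaps : ∀ j ∈ Ioc J (J + K), g j ∈ range (τ + 1) := by
    intro j hj
    rw [mem_Ioc] at hj
    rw [mem_range, hτ]
    have := hg hj.2
    omega
  have hdec : ∑ j ∈ Ioc J (J + K), wt g P u j =
      ∑ t ∈ range (τ + 1), ∑ j ∈ L t, wt g P u j := by
    rw [hL]
    exact (sum_fiberwise_of_maps_to hmaps _).symm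
  have hK : (K : ℝ) = ∑ t ∈ range (τ + 1), ((L t).card : ℝ) := by
    have h1 : ((Ioc J (J + K)).card : ℝ) = ∑ t ∈ range (τ + 1), ((L t).card : ℝ) := by
      rw [hL]
      exact_mod_cast card_eq_sum_card_fiberwise hmaps
    rw [← h1, Nat.card_Ioc]
    congr 1
    omega
  have hpart : ∀ t ∈ range (τ + 1), |∑ j ∈ L t, wt g P u j - B⁻¹ * (L t).card| ≤
      ε * (B⁻¹ * (L t).card) + W τ * Er R τ := by
    intro t ht
    rw [mem_range] at ht
    have hWE : 0 ≤ W τ * Er R τ := mul_nonneg (W_pos τ).le (Er_nonneg _ _)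
    have hε0 : 0 ≤ ε := by rw [hε]; positivity
    obtain ⟨a, k, ha, hk⟩ := level g hg J K t
    have hLt : L t = Ioc a (a + k) := by rw [hL]; exact ha
    have hLk : (L t).card = k := by rw [hLt, Nat.card_Ioc]; omega
    rcases Nat.eq_zero_or_pos k with hk0 | hk0
    · have : L t = ∅ := by rw [hLt, hk0]; simp
      rw [this]
      simp only [sum_empty, card_empty, Nat.cast_zero, mul_zero, sub_zero, abs_zero, zero_add]
      exact hWE
    · -- nonempty stretch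
      obtain ⟨j₀, hj₀⟩ : ∃ j, j ∈ L t := by
        rw [hLt]; exact ⟨a + 1, by rw [mem_Ioc]; omega⟩
      have hj₀' : (J < j₀ ∧ j₀ ≤ J + K) ∧ g j₀ = t := by
        rw [hL, mem_filter, mem_Ioc] at hj₀; exact hj₀
      have hPt : P ⊆ Pr t := by
        intro p hp
        rw [mem_Pr]
        exact ⟨hP p hp, by rw [← hj₀'.2]; exact hPg j₀ hj₀'.1.1 p hp⟩
      have hval : ∀ j ∈ L t, wt g P u j = if ∀ p ∈ Pr t \ P, ¬ p ∣ j + u then W t else 0 := by
        intro j hj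
        rw [hL, mem_filter] at hj
        unfold wt
        rw [hj.2]
        congr 1
        apply propext
        constructor
        · intro h p hp
          rw [mem_sdiff, mem_Pr] at hp
          exact h p hp.1.1 hp.1.2 hp.2
        · intro h p h1 h2 h3
          exact h p (by rw [mem_sdiff, mem_Pr]; exact ⟨⟨h1, h2⟩, h3⟩)
      have hsum : ∑ j ∈ L t, wt g P u j =
          W t * (((Ioc (a + u) (a + u + k)).filter (fun n => ∀ p ∈ Pr t \ P, ¬ p ∣ n)).card : ℝ) := by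
        rw [sum_congr rfl hval, ← sum_filter, sum_const, nsmul_eq_mul, mul_comm]
        congr 2
        rw [hLt]
        apply card_bij (fun j _ => j + u)
        · intro j hj
          rw [mem_filter, mem_Ioc] at hj ⊢
          exact ⟨⟨by omega, by omega⟩, hj.2⟩
        · intro i _ j _ h
          omega
        · intro n hn
          rw [mem_filter, mem_Ioc] at hn
          refine ⟨n - u, ?_, by omega⟩
          rw [mem_filter, mem_Ioc]
          refine ⟨⟨by omega, by omega⟩, ?_⟩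
          have : n - u + u = n := by omega
          rw [this]
          exact hn.2
      have hf := fund R hR t (Pr t \ P) (fun p hp => by
        rw [mem_sdiff, mem_Pr] at hp; exact hp.1) (a + u) k
      rw [← hε] at hf
      have hprod : (∏ p ∈ Pr t \ P, (1 - 1 / (p : ℝ))) = (W t)⁻¹ * B⁻¹ := by
        have h1 := prod_sdiff hPt (f := fun p : ℕ => 1 - 1 / (p : ℝ))
        have h2 : (W t)⁻¹ = ∏ p ∈ Pr t, (1 - 1 / (p : ℝ)) := by
          rw [W_eq, prod_inv_distrib, inv_inv]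
        rw [h2, ← h1, ← hB, mul_assoc, mul_inv_cancel₀ hBpos.ne', mul_one]
      rw [hprod] at hf
      rw [hsum, hLk]
      have hW := W_pos t
      have e1 : W t * (((Ioc (a + u) (a + u + k)).filter (fun n => ∀ p ∈ Pr t \ P, ¬ p ∣ n)).card : ℝ) -
          B⁻¹ * k = W t * ((((Ioc (a + u) (a + u + k)).filter
            (fun n => ∀ p ∈ Pr t \ P, ¬ p ∣ n)).card : ℝ) - (W t)⁻¹ * B⁻¹ * k) := by
        field_simp
      rw [e1, abs_mul, abs_of_pos hW]
      calc W t * |(((Ioc (a + u) (a + u + k)).filter (fun n => ∀ p ∈ Pr t \ P, ¬ p ∣ n)).card : ℝ) -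
            (W t)⁻¹ * B⁻¹ * k| ≤ W t * (ε * ((W t)⁻¹ * B⁻¹ * k) + Er R t) := by gcongr
        _ = ε * (B⁻¹ * k) + W t * Er R t := by field_simp
        _ ≤ ε * (B⁻¹ * k) + W τ * Er R τ := by
            have h5 : t ≤ τ := by omega
            have := mul_le_mul (W_mono h5) (Er_mono (R := R) h5) (Er_nonneg _ _) (W_pos τ).le
            linarith
  rw [hdec, hK, mul_sum, ← sum_sub_distrib]
  refine (abs_sum_le_sum_abs _ _).trans ?_
  refine (sum_le_sum hpart).trans ?_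
  rw [sum_add_distrib, ← mul_sum, ← mul_sum, sum_const, card_range, nsmul_eq_mul]
  push_cast
  have : ∑ t ∈ range (τ + 1), B⁻¹ * ((L t).card : ℝ) = B⁻¹ * ∑ t ∈ range (τ + 1), ((L t).card : ℝ) := by
    rw [mul_sum]
  linarith

end Pool.Agent.U839.Sv
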