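import Mathlib
import Pool.Agent.U839.Sv.Count
import Pool.Agent.U839.Sv.Cnt

set_option autoImplicit false

/-! # Many windows which are poor in integers without prime factors up to `T(n)` -/

open Finset Filter Topology

namespace Pool.Agent.U839.Sv

open Pool.Agent.N610.MS (V rel)

open Classical in
/-- `W (T m)` if `m` has no prime factor up to `T m`, and `0` otherwise -/
noncomputable def fT (T : ℕ → ℕ) (m : ℕ) : ℝ :=
  if ∀ p, p.Prime → p ≤ T m → ¬ p ∣ m then W (T m) else 0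

theorem fT_nonneg (T : ℕ → ℕ) (m : ℕ) : 0 ≤ fT T m := by
  unfold fT
  split_ifs
  · exact (W_pos _).le
  · exact le_rfl

theorem fT_eq_wt (T : ℕ → ℕ) (m : ℕ) : fT T m = wt T ∅ 0 m := by
  unfold fT wt
  congr 1
  apply propext
  constructor
  · intro h p h1 h2 _
    exact h p h1 h2
  · intro h p h1 h2
    exact h p h1 h2 (notMem_empty p)

theorem W_le' (t : ℕ) : W t ≤ t + 1 := by
  rcases Nat.eq_zero_or_pos t with h | h
  · rw [h, W_eq]
    have : Pr 0 = ∅ := by decide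
    rw [this]; simp
  · have := W_le t h
    linarith

theorem err_le (R t : ℕ) : ((t : ℝ) + 1) * (W t * Er R t) ≤ ((t : ℝ) + 2) ^ (8 * R + 18) := by
  have h0 : (0 : ℝ) ≤ t := Nat.cast_nonneg t
  have h1 : Er R t ≤ ((t : ℝ) + 2) ^ (8 * R + 16) := by
    unfold Er
    apply pow_le_pow_left₀ (by positivity)
    push_cast
    apply max_le <;> linarith
  calc ((t : ℝ) + 1) * (W t * Er R t) ≤ (t + 2) * ((t + 2) * (t + 2) ^ (8 * R + 16)) := by
        apply mul_le_mul (by linarith) _ (mul_nonneg (W_pos t).le (Er_nonneg R t)) (by linarith)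
        exact mul_le_mul (by linarith [W_le' t]) h1 (Er_nonneg R t) (by linarith)
    _ = _ := by ring

/-- the remainders in terms of a shift -/
theorem crt (P : Finset ℕ) (hP : ∀ p ∈ P, p.Prime) (h t : ℕ) : ∃ u : ℕ, ∀ p : ℕ, p.Prime → p ≤ t →
    p ∉ P → ∀ j : ℕ, p ∣ (∏ q ∈ P, q) * j + h ↔ p ∣ j + u := by
  obtain ⟨M, hM⟩ : ∃ M, M = ∏ q ∈ P, q := ⟨_, rfl⟩
  obtain ⟨N, hN⟩ : ∃ N, N = ∏ q ∈ Pr t \ P, q := ⟨_, rfl⟩
  rw [← hM]
  have hpN : ∀ p : ℕ, p.Prime → p ≤ t → p ∉ P → p ∣ N := by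
    intro p h1 h2 h3
    rw [hN]
    exact dvd_prod_of_mem _ (by rw [Finset.mem_sdiff, mem_Pr]; exact ⟨⟨h1, h2⟩, h3⟩)
  have hpM : ∀ p : ℕ, p.Prime → p ∉ P → ¬ p ∣ M := by
    intro p h1 h3 hd
    rw [hM, Prime.dvd_finsetProd_iff h1.prime] at hd
    obtain ⟨q, hq, hd⟩ := hd
    rw [Nat.prime_dvd_prime_iff_eq h1 (hP q hq)] at hd
    exact h3 (hd ▸ hq)
  have hcop : Nat.Coprime M N := by
    rw [hN]
    apply Nat.Coprime.prod_right
    intro p hp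
    rw [Finset.mem_sdiff, mem_Pr] at hp
    exact (((Nat.Prime.coprime_iff_not_dvd hp.1.1).2 (hpM p hp.1.1 hp.2))).symm
  rcases Nat.lt_or_ge 1 N with h1 | h1
  · obtain ⟨v, -, hv⟩ := Nat.exists_mul_mod_eq_one_of_coprime hcop h1
    refine ⟨v * h, fun p hp1 hp2 hp3 j => ?_⟩
    have h2 : M * (j + v * h) ≡ M * j + h [MOD p] := by
      have h3 : M * v ≡ 1 [MOD N] := by
        unfold Nat.ModEq
        rw [hv, Nat.mod_eq_of_lt h1]
      have h4 : M * v ≡ 1 [MOD p] := h3.of_dvd (hpN p hp1 hp2 hp3)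
      have h5 : M * (j + v * h) = M * j + M * v * h := by ring
      rw [h5]
      have h6 := (h4.mul_right h).add_left (M * j)
      rwa [one_mul] at h6
    have h7 : p ∣ M * (j + v * h) ↔ p ∣ M * j + h := by
      rw [Nat.dvd_iff_mod_eq_zero, Nat.dvd_iff_mod_eq_zero, h2]
    rw [← h7, hp1.dvd_mul]
    constructor
    · rintro (h8 | h8)
      · exact absurd h8 (hpM p hp1 hp3)
      · exact h8
    · exact Or.inr
  · refine ⟨0, fun p hp1 hp2 hp3 j => ?_⟩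
    exfalso
    have h2 := hpN p hp1 hp2 hp3
    have h3 : 0 < N := by
      rw [hN]
      apply prod_pos
      intro q hq
      rw [Finset.mem_sdiff, mem_Pr] at hq
      exact hq.1.1.pos
    have h4 : N = 1 := by omega
    rw [h4] at h2
    exact hp1.one_lt.ne' (Nat.dvd_one.1 h2)

/-- the sum over a column -/
theorem column (R : ℕ) (hR : 13 ≤ R) (T : ℕ → ℕ) (hT : Monotone T) (P : Finset ℕ)
    (hP : ∀ p ∈ P, p.Prime) (x J K h t : ℕ) (hx : ∀ p ∈ P, p ≤ T x)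
    (hJ : ∀ j, J < j → x ≤ (∏ q ∈ P, q) * j) (ht : T ((∏ q ∈ P, q) * (J + K) + h) ≤ t) :
    ∑ j ∈ Ioc J (J + K), fT T ((∏ q ∈ P, q) * j + h) ≤
      if ∀ p ∈ P, ¬ p ∣ h then (1 + 2 ^ 25 * (1 / 2) ^ (2 * R)) *
        ((∏ p ∈ P, (1 - 1 / (p : ℝ)))⁻¹ * K) + ((t : ℝ) + 2) ^ (8 * R + 18) else 0 := by
  classical
  obtain ⟨M, hM⟩ : ∃ M, M = ∏ q ∈ P, q := ⟨_, rfl⟩
  rw [← hM] at hJ ht ⊢
  have hpM : ∀ p ∈ P, p ∣ M := fun p hp => by rw [hM]; exact dvd_prod_of_mem _ hp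
  have hPT : ∀ j, J < j → ∀ p ∈ P, p ≤ T (M * j + h) := by
    intro j hj p hp
    exact (hx p hp).trans (hT ((hJ j hj).trans (Nat.le_add_right _ _)))
  split_ifs with hh
  · obtain ⟨u, hu⟩ := crt P hP h t
    rw [← hM] at hu
    have hg : Monotone (fun j => T (M * j + h)) := by
      intro i j hij
      apply hT
      have := Nat.mul_le_mul_left M hij
      omega
    have hs := stretch R hR (fun j => T (M * j + h)) hg P hP u J K hPT
    have he : ∀ j ∈ Ioc J (J + K), fT T (M * j + h) = wt (fun j => T (M * j + h)) P u j := by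
      intro j hj
      rw [mem_Ioc] at hj
      unfold fT wt
      congr 1
      apply propext
      have htj : T (M * j + h) ≤ t := (hg hj.2).trans ht
      constructor
      · intro h1 p h2 h3 h4
        rw [← hu p h2 (h3.trans htj) h4 j]
        exact h1 p h2 h3
      · intro h1 p h2 h3
        by_cases h4 : p ∈ P
        · rw [← Nat.dvd_add_iff_right ((hpM p h4).mul_right j)]
          exact hh p h4
        · rw [hu p h2 (h3.trans htj) h4 j]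
          exact h1 p h2 h3 h4
    rw [sum_congr rfl he]
    have h1 := (abs_le.1 hs).2
    have h2 := err_le R (T (M * (J + K) + h))
    have h3 : ((T (M * (J + K) + h) : ℝ) + 2) ^ (8 * R + 18) ≤ ((t : ℝ) + 2) ^ (8 * R + 18) := by
      apply pow_le_pow_left₀ (by positivity)
      have : (T (M * (J + K) + h) : ℝ) ≤ t := by exact_mod_cast ht
      linarith
    linarith
  · push Not at hh
    obtain ⟨p, hp, hph⟩ := hh
    apply le_of_eq
    apply sum_eq_zero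
    intro j hj
    rw [mem_Ioc] at hj
    unfold fT
    rw [if_neg]
    push Not
    exact ⟨p, hP p hp, hPT j hj.1 p hp, (Nat.dvd_add ((hpM p hp).mul_right j) hph)⟩

theorem T_small (T : ℕ → ℕ) (hTs : ∀ ε : ℝ, 0 < ε → ∀ᶠ n : ℕ in atTop, (T n : ℝ) ≤ (n : ℝ) ^ ε)
    (D : ℕ) (hD : 1 ≤ D) (ε : ℝ) (hε : 0 < ε) : ∀ᶠ x : ℕ in atTop, ((T (3 * x) : ℝ) + 2) ^ D ≤ (x : ℝ) ^ ε := by
  have hD0 : (0 : ℝ) < D := by exact_mod_cast hD
  have h1 : Tendsto (fun x : ℕ => 3 * x) atTop atTop :=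
    tendsto_id.const_mul_atTop' (by norm_num)
  have e1 : ∀ᶠ x : ℕ in atTop, (T (3 * x) : ℝ) ≤ ((3 * x : ℕ) : ℝ) ^ (ε / (2 * D)) :=
    h1.eventually (hTs (ε / (2 * D)) (by positivity))
  have e2 : ∀ᶠ x : ℕ in atTop, (3 : ℝ) ^ (ε / (2 * D)) + 2 ≤ (x : ℝ) ^ (ε / (2 * D)) :=
    ((tendsto_rpow_atTop (by positivity)).comp tendsto_natCast_atTop_atTop).eventually_ge_atTop _
  filter_upwards [e1, e2, eventually_ge_atTop 1] with x h2 h3 h4
  have hx1 : (1 : ℝ) ≤ x := by exact_mod_cast h4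
  have hx0 : (0 : ℝ) < x := by linarith
  have h5 : (1 : ℝ) ≤ (x : ℝ) ^ (ε / (2 * D)) := Real.one_le_rpow hx1 (by positivity)
  have h6 : (T (3 * x) : ℝ) + 2 ≤ (x : ℝ) ^ (ε / D) := by
    have e3 : ((3 * x : ℕ) : ℝ) ^ (ε / (2 * D)) = 3 ^ (ε / (2 * D)) * (x : ℝ) ^ (ε / (2 * D)) := by
      push_cast
      rw [Real.mul_rpow (by norm_num) hx0.le]
    rw [e3] at h2
    have e4 : (x : ℝ) ^ (ε / D) = (x : ℝ) ^ (ε / (2 * D)) * (x : ℝ) ^ (ε / (2 * D)) := by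
      rw [← Real.rpow_add hx0]
      congr 1
      field_simp
      norm_num
    rw [e4]
    nlinarith
  calc ((T (3 * x) : ℝ) + 2) ^ D ≤ ((x : ℝ) ^ (ε / D)) ^ D := by
        apply pow_le_pow_left₀ (by positivity) h6
    _ = (x : ℝ) ^ ε := by
        rw [← Real.rpow_natCast, ← Real.rpow_mul hx0.le]
        congr 1
        field_simp

theorem exists_R (δ : ℝ) (hδ : 0 < δ) : ∃ R : ℕ, 13 ≤ R ∧ (2 : ℝ) ^ 25 * (1 / 2) ^ (2 * R) ≤ δ := by
  have h1 : Tendsto (fun R : ℕ => (2 : ℝ) ^ 25 * (1 / 2) ^ (2 * R)) atTop (𝓝 (2 ^ 25 * 0)) := by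
    apply Tendsto.const_mul
    have h2 : Tendsto (fun R : ℕ => ((1 / 2 : ℝ) ^ 2) ^ R) atTop (𝓝 0) :=
      tendsto_pow_atTop_nhds_zero_of_lt_one (by positivity) (by norm_num)
    refine h2.congr (fun R => ?_)
    rw [← pow_mul]
  rw [mul_zero] at h1
  obtain ⟨R, h2, h3⟩ := ((h1.eventually (eventually_le_nhds hδ)).and (eventually_ge_atTop 13)).exists
  exact ⟨R, h3, h2⟩

set_option maxHeartbeats 4000000 in
/-- many poor windows -/
theorem poor (θ : ℝ) (hθ : 0 < θ) : ∃ δ : ℝ, 0 < δ ∧ δ ≤ 1 ∧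
    ∀ (T : ℕ → ℕ), Monotone T →
      (∀ ε : ℝ, 0 < ε → ∀ᶠ n : ℕ in atTop, (T n : ℝ) ≤ (n : ℝ) ^ ε) →
      ∀ c η : ℝ, 1 ≤ c → 0 < η → η ≤ 1 / 2 → ∀ᶠ x : ℕ in atTop, (Real.log x) ^ θ ≤ T x →
        ∃ S : Finset ℕ, (∀ n ∈ S, x < n ∧ n ≤ 2 * x ∧
          ∑ m ∈ Ioc n (n + ⌊c * (Real.log x) ^ 2⌋₊), fT T m ≤ (1 - δ / 2) * (c * (Real.log x) ^ 2)) ∧
          (x : ℝ) ^ (1 - η) ≤ S.card := by
  classical
  obtain ⟨κ, δ, hκ, hδ, hδ1, H⟩ := cnt θ 2 hθ (by norm_num)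
  refine ⟨δ, hδ, hδ1, fun T hT hTs c η hc hη hη2 => ?_⟩
  obtain ⟨R, hR, hRδ⟩ := exists_R (δ / 2) (by positivity)
  have hlog : Tendsto (fun x : ℕ => Real.log x) atTop atTop :=
    Real.tendsto_log_atTop.comp tendsto_natCast_atTop_atTop
  have E1 := hlog.eventually (H (η / 2) (by positivity))
  have E2 : ∀ᶠ x : ℕ in atTop, c ≤ (Real.log x) ^ κ :=
    ((tendsto_rpow_atTop hκ).comp hlog).eventually_ge_atTop _
  have E3 := T_small T hTs (8 * R + 18) (by omega) (1 / 4) (by norm_num)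
  have E4 : ∀ᶠ x : ℕ in atTop, 8 / δ ≤ (x : ℝ) ^ (1 / 4 : ℝ) :=
    ((tendsto_rpow_atTop (by norm_num)).comp tendsto_natCast_atTop_atTop).eventually_ge_atTop _
  have E5 : ∀ᶠ x : ℕ in atTop, 8 / δ ≤ (x : ℝ) ^ (η / 2 : ℝ) :=
    ((tendsto_rpow_atTop (by positivity)).comp tendsto_natCast_atTop_atTop).eventually_ge_atTop _
  have E6 : ∀ᶠ x : ℕ in atTop, c * (Real.log x) ^ 2 ≤ x := by
    have h1 := (isLittleO_log_rpow_atTop (r := 1 / 4) (by norm_num)).bound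
      (show (0 : ℝ) < 1 by norm_num)
    have h2 : ∀ᶠ x : ℝ in atTop, c ≤ x ^ (1 / 2 : ℝ) :=
      (tendsto_rpow_atTop (by norm_num)).eventually_ge_atTop _
    filter_upwards [tendsto_natCast_atTop_atTop.eventually h1,
      tendsto_natCast_atTop_atTop.eventually h2, eventually_ge_atTop 1] with x g1 g2 g3
    have hx1 : (1 : ℝ) ≤ x := by exact_mod_cast g3
    have hx0 : (0 : ℝ) < x := by linarith
    rw [Real.norm_of_nonneg (Real.log_nonneg hx1), Real.norm_of_nonneg (by positivity), one_mul] at g1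
    have g4 : (Real.log x) ^ 2 ≤ ((x : ℝ) ^ (1 / 4 : ℝ)) ^ 2 :=
      pow_le_pow_left₀ (Real.log_nonneg hx1) g1 2
    have g5 : ((x : ℝ) ^ (1 / 4 : ℝ)) ^ 2 = (x : ℝ) ^ (1 / 2 : ℝ) := by
      rw [← Real.rpow_natCast, ← Real.rpow_mul hx0.le]
      norm_num
    have g6 : (x : ℝ) ^ (1 / 2 : ℝ) * (x : ℝ) ^ (1 / 2 : ℝ) = x := by
      rw [← Real.rpow_add hx0]
      norm_num
    have g7 : 0 < (x : ℝ) ^ (1 / 2 : ℝ) := Real.rpow_pos_of_pos hx0 _
    calc c * (Real.log x) ^ 2 ≤ (x : ℝ) ^ (1 / 2 : ℝ) * (x : ℝ) ^ (1 / 2 : ℝ) := by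
          rw [g5] at g4
          apply mul_le_mul g2 g4 (by positivity) g7.le
      _ = x := g6
  filter_upwards [E1, E2, E3, E4, E5, E6, hlog.eventually_ge_atTop 1, eventually_ge_atTop 1] with
    x g1 g2 g3 g4 g5 g6 g7 g8 g9
  obtain ⟨P, hP1, hP2, hP3⟩ := g1
  have hx1 : (1 : ℝ) ≤ x := by exact_mod_cast g8
  have hx0 : (0 : ℝ) < x := by linarith
  obtain ⟨L, hL⟩ : ∃ L, L = Real.log x := ⟨_, rfl⟩
  rw [← hL] at g2 g6 g7 g9 hP1 hP2 hP3
  rw [← hL]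
  have hL0 : 0 < L := by linarith
  have hPp : ∀ p ∈ P, p.Prime := fun p hp => (hP1 p hp).1
  obtain ⟨B, hB⟩ : ∃ B, B = ∏ p ∈ P, (1 - 1 / (p : ℝ)) := ⟨_, rfl⟩
  have hBpos : 0 < B := by rw [hB]; exact prod_pos' hPp
  obtain ⟨y, hy⟩ : ∃ y : ℝ, y = c * L ^ 2 := ⟨_, rfl⟩
  rw [← hy] at g6
  rw [← hy]
  have hy0 : 0 < y := by rw [hy]; positivity
  obtain ⟨Y, hY⟩ : ∃ Y, Y = ⌊y⌋₊ := ⟨_, rfl⟩
  rw [← hY]
  have hYy : (Y : ℝ) ≤ y := by rw [hY]; exact Nat.floor_le hy0.le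
  -- the density
  have hV : (V P Y : ℝ) ≤ (1 - 2 * δ) * (y * B) := by
    have h1 := hP3 y (by rw [Real.rpow_two, hy]; nlinarith [sq_nonneg L]) (by
      rw [Real.rpow_add hL0, Real.rpow_two, hy, mul_comm]
      exact mul_le_mul_of_nonneg_left g2 (by positivity))
    have h2 : rel P y = (V P Y : ℝ) / (y * B) := by rw [hY, hB]; rfl
    rw [h2] at h1
    have h3 : (V P Y : ℝ) / (y * B) ≤ 1 - 2 * δ := by linarith
    rwa [div_le_iff₀ (by positivity)] at h3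
  have hV2 : (V P Y : ℝ) ≤ y := by
    refine le_trans ?_ hYy
    unfold V
    exact_mod_cast (card_filter_le _ _).trans (by rw [Nat.card_Icc]; omega)
  obtain ⟨M, hM⟩ : ∃ M, M = ∏ p ∈ P, p := ⟨_, rfl⟩
  rw [← hM] at hP2
  have hMpos : 0 < M := by
    rw [hM]
    exact prod_pos fun p hp => (hPp p hp).pos
  have hMx : (M : ℝ) ≤ (x : ℝ) ^ (η / 2) := by
    rw [Real.rpow_def_of_pos hx0, ← hL, mul_comm]
    exact hP2
  obtain ⟨K, hK⟩ : ∃ K, K = x / M := ⟨_, rfl⟩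
  have hKM : M * K ≤ x := by rw [hK]; exact Nat.mul_div_le x M
  have hKM2 : x < M * (K + 1) := by rw [hK]; exact Nat.lt_mul_div_succ x hMpos
  have hx14 : (8 / δ) * (x : ℝ) ^ (1 / 4 : ℝ) ≤ (x : ℝ) ^ (1 - η / 2) := by
    calc (8 / δ) * (x : ℝ) ^ (1 / 4 : ℝ) ≤ (x : ℝ) ^ (1 / 4 : ℝ) * (x : ℝ) ^ (1 / 4 : ℝ) := by
          gcongr
      _ = (x : ℝ) ^ (1 / 2 : ℝ) := by rw [← Real.rpow_add hx0]; norm_num
      _ ≤ (x : ℝ) ^ (1 - η / 2) := Real.rpow_le_rpow_of_exponent_le hx1 (by linarith)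
  have hKx : (x : ℝ) ^ (1 - η / 2) ≤ K + 1 := by
    have h1 : (x : ℝ) ≤ M * (K + 1) := by exact_mod_cast hKM2.le
    have h2 : (x : ℝ) = (x : ℝ) ^ (η / 2) * (x : ℝ) ^ (1 - η / 2) := by
      rw [← Real.rpow_add hx0]; norm_num
    have h3 : 0 < (x : ℝ) ^ (η / 2) := Real.rpow_pos_of_pos hx0 _
    have h4 : (x : ℝ) ^ (η / 2) * (x : ℝ) ^ (1 - η / 2) ≤ (x : ℝ) ^ (η / 2) * (K + 1) := by
      rw [← h2]
      refine h1.trans ?_
      gcongr
    exact le_of_mul_le_mul_left h4 h3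
  have hx14' : 1 ≤ (x : ℝ) ^ (1 / 4 : ℝ) := Real.one_le_rpow hx1 (by norm_num)
  have h8δ : 8 ≤ 8 / δ := by
    rw [le_div_iff₀ hδ]; linarith
  have hK2 : (x : ℝ) ^ (1 - η / 2) ≤ 2 * K := by nlinarith
  have hK0 : (0 : ℝ) < K := by
    have : 0 < (x : ℝ) ^ (1 - η / 2) := Real.rpow_pos_of_pos hx0 _
    linarith
  -- the error
  have herr : ((T (3 * x) : ℝ) + 2) ^ (8 * R + 18) ≤ δ / 2 * K := by
    have h1 : (x : ℝ) ^ (1 / 4 : ℝ) ≤ δ / 4 * (x : ℝ) ^ (1 - η / 2) := by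
      have h2 : (8 / δ) * (x : ℝ) ^ (1 / 4 : ℝ) * (δ / 8) ≤ (x : ℝ) ^ (1 - η / 2) * (δ / 8) := by
        gcongr
      have h3 : (8 / δ) * (x : ℝ) ^ (1 / 4 : ℝ) * (δ / 8) = (x : ℝ) ^ (1 / 4 : ℝ) := by field_simp
      have h4 : 0 < (x : ℝ) ^ (1 - η / 2) := Real.rpow_pos_of_pos hx0 _
      nlinarith
    nlinarith
  have hPx : ∀ p ∈ P, p ≤ T x := by
    intro p hp
    have := ((hP1 p hp).2).trans g9
    exact_mod_cast this
  have hJ : ∀ j, K < j → x ≤ (∏ q ∈ P, q) * j := by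
    intro j hj
    rw [← hM]
    have : M * (K + 1) ≤ M * j := Nat.mul_le_mul_left M hj
    omega
  have hYx : Y ≤ x := by
    have : (Y : ℝ) ≤ x := hYy.trans g6
    exact_mod_cast this
  -- the total
  have htot : ∑ j ∈ Ioc K (K + K), ∑ h ∈ Icc 1 Y, fT T (M * j + h) ≤ (1 - δ) * (y * K) := by
    rw [sum_comm]
    have h1 : ∀ h ∈ Icc 1 Y, ∑ j ∈ Ioc K (K + K), fT T (M * j + h) ≤
        if ∀ p ∈ P, ¬ p ∣ h then ((1 + δ / 2) * (B⁻¹ * K) + δ / 2 * K) else 0 := by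
      intro h hh
      rw [mem_Icc] at hh
      have h2 := column R hR T hT P hPp x K K h (T (3 * x)) hPx hJ (by
        rw [← hM]
        apply hT
        have : M * (K + K) = M * K + M * K := by ring
        omega)
      rw [← hM, ← hB] at h2
      refine h2.trans ?_
      split_ifs
      · have h3 : (1 + 2 ^ 25 * (1 / 2) ^ (2 * R)) * (B⁻¹ * K) ≤ (1 + δ / 2) * (B⁻¹ * K) := by
          gcongr
        linarith
      · exact le_rfl
    refine (sum_le_sum h1).trans ?_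
    rw [← sum_filter, sum_const, nsmul_eq_mul]
    have h2 : (((Icc 1 Y).filter (fun h => ∀ p ∈ P, ¬ p ∣ h)).card : ℝ) = V P Y := rfl
    rw [h2, mul_add]
    have h3 : (V P Y : ℝ) * ((1 + δ / 2) * (B⁻¹ * K)) ≤ (1 - 2 * δ) * (y * B) * ((1 + δ / 2) * (B⁻¹ * K)) := by
      gcongr
    have h4 : (1 - 2 * δ) * (y * B) * ((1 + δ / 2) * (B⁻¹ * K)) = (1 - 2 * δ) * (1 + δ / 2) * (y * K) := by
      field_simp
    have h5 : (V P Y : ℝ) * (δ / 2 * K) ≤ y * (δ / 2 * K) := by gcongr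
    have h6 : 0 ≤ y * K := by positivity
    nlinarith [mul_nonneg (sq_nonneg δ) h6]
  -- the good rows
  obtain ⟨Gd, hGd⟩ : ∃ Gd, Gd = (Ioc K (K + K)).filter
      (fun j => ∑ h ∈ Icc 1 Y, fT T (M * j + h) ≤ (1 - δ / 2) * y) := ⟨_, rfl⟩
  have hGc : δ / 2 * K ≤ Gd.card := by
    obtain ⟨Bd, hBd⟩ : ∃ Bd, Bd = (Ioc K (K + K)).filter
      (fun j => ¬ ∑ h ∈ Icc 1 Y, fT T (M * j + h) ≤ (1 - δ / 2) * y) := ⟨_, rfl⟩
    have h1 : (Gd.card : ℝ) + Bd.card = K := by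
      have := card_filter_add_card_filter_not (s := Ioc K (K + K))
        (fun j => ∑ h ∈ Icc 1 Y, fT T (M * j + h) ≤ (1 - δ / 2) * y)
      rw [← hGd, ← hBd, Nat.card_Ioc] at this
      have h2 : Gd.card + Bd.card = K := by omega
      exact_mod_cast h2
    have h2 : (Bd.card : ℝ) * ((1 - δ / 2) * y) ≤ (1 - δ) * (y * K) := by
      refine le_trans ?_ htot
      rw [← nsmul_eq_mul, ← sum_const]
      refine le_trans (sum_le_sum (fun j hj => ?_)) (sum_le_sum_of_subset_of_nonneg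
        (by rw [hBd]; exact filter_subset _ _) (fun j _ _ => sum_nonneg fun h _ => fT_nonneg T _))
      rw [hBd, mem_filter] at hj
      exact (not_le.1 hj.2).le
    have h3 : (Bd.card : ℝ) * (1 - δ / 2) ≤ (1 - δ) * K := by
      have h4 : ((Bd.card : ℝ) * (1 - δ / 2)) * y ≤ ((1 - δ) * K) * y := by linarith
      exact le_of_mul_le_mul_right h4 hy0
    have h5 : (0 : ℝ) ≤ Gd.card := Nat.cast_nonneg _
    have h6 : (Bd.card : ℝ) = K - Gd.card := by linarith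
    rw [h6] at h3
    nlinarith
  refine ⟨Gd.image (fun j => M * j), ?_, ?_⟩
  · intro n hn
    rw [mem_image] at hn
    obtain ⟨j, hj, rfl⟩ := hn
    rw [hGd, mem_filter, mem_Ioc] at hj
    obtain ⟨⟨h1, h2⟩, h3⟩ := hj
    refine ⟨?_, ?_, ?_⟩
    · have : M * (K + 1) ≤ M * j := Nat.mul_le_mul_left M h1
      omega
    · have : M * j ≤ M * (K + K) := Nat.mul_le_mul_left M h2
      have h4 : M * (K + K) = M * K + M * K := by ring
      omega
    · refine le_trans (le_of_eq ?_) h3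
      apply sum_bij (fun m _ => m - M * j)
      · intro m hm
        rw [mem_Ioc] at hm
        rw [mem_Icc]
        omega
      · intro a ha b hb hab
        rw [mem_Ioc] at ha hb
        omega
      · intro h hh
        rw [mem_Icc] at hh
        exact ⟨M * j + h, by rw [mem_Ioc]; omega, by omega⟩
      · intro m hm
        rw [mem_Ioc] at hm
        congr 1
        omega
  · rw [card_image_of_injective _ (fun a b hab => Nat.eq_of_mul_eq_mul_left hMpos hab)]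
    have h1 : (x : ℝ) ^ (1 - η / 2) = (x : ℝ) ^ (η / 2) * (x : ℝ) ^ (1 - η) := by
      rw [← Real.rpow_add hx0]
      congr 1
      ring
    have h2 : 0 < (x : ℝ) ^ (1 - η) := Real.rpow_pos_of_pos hx0 _
    have h3 : 8 / δ * (x : ℝ) ^ (1 - η) ≤ 2 * K := by
      refine le_trans ?_ hK2
      rw [h1]
      gcongr
    have h4 : 8 / δ * (x : ℝ) ^ (1 - η) * (δ / 8) = (x : ℝ) ^ (1 - η) := by field_simp
    have h5 : 8 / δ * (x : ℝ) ^ (1 - η) * (δ / 8) ≤ 2 * K * (δ / 8) := by gcongr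
    nlinarith

end Pool.Agent.U839.Sv
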