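import Mathlib
import Pool.Agent.U839.Disp.Prob
import Pool.Agent.U839.Thin.Mix

set_option autoImplicit false

/-! # The integral test for the gaps of random sets -/

open MeasureTheory ProbabilityTheory Filter Finset Topology

namespace Pool.Agent.U839.Sv

open Pool.Agent.U839.Thin (one_sub_ge tlog)

variable {Ω : Type*} [MeasurableSpace Ω] {μ : Measure Ω} [IsProbabilityMeasure μ]

open Classical in
/-- events and complements -/
noncomputable def BB (E : ℕ → Set Ω) (S : Set ℕ) (p : ℕ) : Set Ω := if p ∈ S then E p else (E p)ᶜ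

omit [IsProbabilityMeasure μ] in
theorem mixed {E : ℕ → Set Ω} (hE : iIndepSet E μ) (S : Set ℕ) : iIndepSet (BB E S) μ := by
  rw [iIndepSet_iff_iIndep] at *
  have h : (fun i => MeasurableSpace.generateFrom {BB E S i}) =
      fun i => MeasurableSpace.generateFrom {E i} := by
    funext i
    unfold BB
    split_ifs with hi
    · rfl
    · apply le_antisymm
      · apply MeasurableSpace.generateFrom_le
        intro t ht
        rw [Set.mem_singleton_iff.1 ht]
        exact (MeasurableSpace.measurableSet_generateFrom (Set.mem_singleton _)).compl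
      · apply MeasurableSpace.generateFrom_le
        intro t ht
        rw [Set.mem_singleton_iff.1 ht]
        have : MeasurableSet[MeasurableSpace.generateFrom {(E i)ᶜ}] ((E i)ᶜ)ᶜ :=
          (MeasurableSpace.measurableSet_generateFrom (Set.mem_singleton _)).compl
        rwa [compl_compl] at this
  rw [h]
  exact hE

omit [IsProbabilityMeasure μ] in
theorem mixed_prod {E : ℕ → Set Ω} (hE : iIndepSet E μ) (S : Set ℕ) (U : Finset ℕ) :
    μ.real (⋂ k ∈ U, BB E S k) = ∏ k ∈ U, μ.real (BB E S k) := by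
  have := (mixed hE S).meas_biInter U
  simp only [measureReal_def]
  rw [this, ENNReal.toReal_prod]

/-- `n` is chosen, and no element of `(n, n + w]` -/
def AA (E : ℕ → Set Ω) (w : ℕ → ℕ) (n : ℕ) : Set Ω := E n ∩ ⋂ m ∈ Ioc n (n + w n), (E m)ᶜ

theorem AA_meas {E : ℕ → Set Ω} (hm : ∀ n, MeasurableSet (E n)) (w : ℕ → ℕ) (n : ℕ) :
    MeasurableSet (AA E w n) :=
  (hm n).inter (Finset.measurableSet_biInter _ (fun m _ => (hm m).compl))

omit [MeasurableSpace Ω] in
theorem AA_eq (E : ℕ → Set Ω) (w : ℕ → ℕ) (n : ℕ) (S : Set ℕ)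
    (hS : ∀ k ∈ Icc n (n + w n), k ∈ S ↔ k = n) :
    AA E w n = ⋂ k ∈ Icc n (n + w n), BB E S k := by
  ext ω
  unfold AA BB
  simp only [Set.mem_inter_iff, Set.mem_iInter, Finset.mem_Ioc, Finset.mem_Icc, Set.mem_compl_iff]
  constructor
  · rintro ⟨h1, h2⟩ k hk
    have h3 := hS k (Finset.mem_Icc.2 hk)
    split_ifs with h4
    · rw [h3.1 h4]; exact h1
    · exact h2 k ⟨lt_of_le_of_ne hk.1 (fun h => h4 (h3.2 h.symm)), hk.2⟩
  · intro h
    constructor
    · have h1 := h n ⟨le_rfl, Nat.le_add_right _ _⟩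
      have h2 := (hS n (Finset.mem_Icc.2 ⟨le_rfl, Nat.le_add_right _ _⟩)).2 rfl
      rwa [if_pos h2] at h1
    · intro k hk
      have h1 := h k ⟨hk.1.le, hk.2⟩
      have h2 := hS k (Finset.mem_Icc.2 ⟨hk.1.le, hk.2⟩)
      rw [if_neg (fun h3 => by
        have := h2.1 h3
        omega)] at h1
      exact h1

theorem AA_prob {E : ℕ → Set Ω} (hm : ∀ n, MeasurableSet (E n)) (hE : iIndepSet E μ) (w : ℕ → ℕ)
    (n : ℕ) : μ.real (AA E w n) = μ.real (E n) * ∏ m ∈ Ioc n (n + w n), (1 - μ.real (E m)) := by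
  rw [AA_eq E w n {n} (fun k _ => Set.mem_singleton_iff), mixed_prod hE]
  have h1 : Icc n (n + w n) = insert n (Ioc n (n + w n)) := by
    ext k
    rw [Finset.mem_Icc, Finset.mem_insert, Finset.mem_Ioc]
    omega
  rw [h1, Finset.prod_insert (by rw [Finset.mem_Ioc]; omega)]
  congr 1
  · unfold BB
    rw [if_pos (Set.mem_singleton n)]
  · apply Finset.prod_congr rfl
    intro k hk
    rw [Finset.mem_Ioc] at hk
    unfold BB
    rw [if_neg (by rw [Set.mem_singleton_iff]; omega), probReal_compl_eq_one_sub (hm k)]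

omit [IsProbabilityMeasure μ] in
theorem AA_neg_lt {E : ℕ → Set Ω} (hE : iIndepSet E μ) (w : ℕ → ℕ)
    (n m : ℕ) (hnm : n < m) :
    μ.real (AA E w n ∩ AA E w m) ≤ μ.real (AA E w n) * μ.real (AA E w m) := by
  classical
  by_cases h : m ≤ n + w n
  · have h1 : AA E w n ∩ AA E w m = ∅ := by
      apply Set.eq_empty_of_forall_notMem
      rintro ω ⟨h1, h2⟩
      unfold AA at h1 h2
      simp only [Set.mem_inter_iff, Set.mem_iInter, Finset.mem_Ioc, Set.mem_compl_iff] at h1 h2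
      exact h1.2 m ⟨hnm, h⟩ h2.1
    rw [h1]
    simp only [measureReal_empty]
    positivity
  · push Not at h
    have e1 := AA_eq E w n {n, m} (fun k hk => by
      rw [Finset.mem_Icc] at hk
      rw [Set.mem_insert_iff, Set.mem_singleton_iff]
      omega)
    have e2 := AA_eq E w m {n, m} (fun k hk => by
      rw [Finset.mem_Icc] at hk
      rw [Set.mem_insert_iff, Set.mem_singleton_iff]
      omega)
    have e3 : AA E w n ∩ AA E w m =
        ⋂ k ∈ (Icc n (n + w n) ∪ Icc m (m + w m)), BB E {n, m} k := by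
      rw [e1, e2]
      ext ω
      simp only [Set.mem_inter_iff, Set.mem_iInter, Finset.mem_union]
      constructor
      · rintro ⟨h1, h2⟩ k (hk | hk)
        · exact h1 k hk
        · exact h2 k hk
      · intro h1
        exact ⟨fun k hk => h1 k (Or.inl hk), fun k hk => h1 k (Or.inr hk)⟩
    rw [e3, mixed_prod hE, Finset.prod_union (by
      rw [Finset.disjoint_left]
      intro k hk1 hk2
      rw [Finset.mem_Icc] at hk1 hk2
      omega), ← mixed_prod hE, ← mixed_prod hE, ← e1, ← e2]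

omit [IsProbabilityMeasure μ] in
theorem AA_neg {E : ℕ → Set Ω} (hE : iIndepSet E μ) (w : ℕ → ℕ)
    (n m : ℕ) (hnm : n ≠ m) :
    μ.real (AA E w n ∩ AA E w m) ≤ μ.real (AA E w n) * μ.real (AA E w m) := by
  rcases Nat.lt_or_gt_of_ne hnm with h | h
  · exact AA_neg_lt hE w n m h
  · rw [Set.inter_comm, mul_comm]
    exact AA_neg_lt hE w m n h

/-- divergence -/
theorem io {E : ℕ → Set Ω} (hm : ∀ n, MeasurableSet (E n)) (hE : iIndepSet E μ) (w : ℕ → ℕ)
    (h : ¬ Summable (fun n => μ.real (AA E w n))) : ∀ᵐ ω ∂μ, ∃ᶠ n in atTop, ω ∈ AA E w n := by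
  have h1 : ∀ᵐ ω ∂μ, ∀ N : ℕ, ∃ n ≥ N, ω ∈ AA E w n := by
    rw [ae_all_iff]
    intro N
    rw [ae_iff]
    have h2 : {ω | ¬ ∃ n ≥ N, ω ∈ AA E w n} = ⋂ n ∈ {n | N ≤ n}, (AA E w n)ᶜ := by
      ext ω
      simp only [Set.mem_ofPred_eq, Set.mem_iInter, Set.mem_compl_iff]
      push Not
      rfl
    rw [h2]
    by_contra hne
    have hpos : 0 < μ.real (⋂ n ∈ {n | N ≤ n}, (AA E w n)ᶜ) :=
      ENNReal.toReal_pos hne (measure_ne_top _ _)
    obtain ⟨c, hc⟩ : ∃ c, c = μ.real (⋂ n ∈ {n | N ≤ n}, (AA E w n)ᶜ) := ⟨_, rfl⟩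
    rw [← hc] at hpos
    -- the sums are bounded
    have hb : ∀ M, ∑ n ∈ Ico N M, μ.real (AA E w n) ≤ 1 / c := by
      intro M
      rcases (Finset.sum_nonneg (fun n (_ : n ∈ Ico N M) =>
        measureReal_nonneg (μ := μ) (s := AA E w n))).eq_or_lt with h3 | h3
      · rw [← h3]; positivity
      · have h4 := Pool.Agent.U839.Disp.second_moment (μ := μ) (Ico N M) (AA E w)
          (fun i _ => AA_meas hm w i) (fun i _ j _ hij => AA_neg hE w i j hij) h3
        have h5 : c ≤ μ.real (⋂ i ∈ Ico N M, (AA E w i)ᶜ) := by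
          rw [hc]
          apply measureReal_mono _ (measure_ne_top _ _)
          intro ω hω
          simp only [Set.mem_iInter, Finset.mem_Ico] at hω ⊢
          intro i hi
          exact hω i hi.1
        have h6 := h5.trans h4
        rw [le_div_iff₀ h3] at h6
        rw [le_div_iff₀ hpos]
        linarith
    apply h
    rw [← summable_nat_add_iff N]
    apply summable_of_sum_range_le (c := 1 / c) (fun n => measureReal_nonneg)
    intro n
    have h3 := hb (N + n)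
    rw [Finset.sum_Ico_eq_sum_range] at h3
    have h4 : N + n - N = n := by omega
    rw [h4] at h3
    refine le_trans (le_of_eq ?_) h3
    apply Finset.sum_congr rfl
    intro i _
    rw [add_comm]
  filter_upwards [h1] with ω hω
  rw [frequently_atTop]
  exact hω

/-- convergence -/
theorem fo {E : ℕ → Set Ω} (w : ℕ → ℕ)
    (h : Summable (fun n => μ.real (AA E w n))) : ∀ᵐ ω ∂μ, ∀ᶠ n in atTop, ω ∉ AA E w n := by
  apply ae_eventually_notMem
  have h1 : ∀ n, μ (AA E w n) = ENNReal.ofReal (μ.real (AA E w n)) := fun n =>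
    (ENNReal.ofReal_toReal (measure_ne_top μ _)).symm
  simp only [h1]
  exact h.tsum_ofReal_ne_top

/-- the hypotheses on the probabilities -/
def Reg (ρ : ℕ → ℝ) (C : ℝ) : Prop := (∀ n, 0 ≤ ρ n) ∧ (∀ᶠ n : ℕ in atTop, ρ n ≤ C / Real.log n) ∧
  ∀ᶠ n : ℕ in atTop, ∀ w : ℕ, (w : ℝ) ≤ 3 * (Real.log n) ^ 2 →
    |∑ m ∈ Ioc n (n + w), ρ m - w / Real.log n| ≤ C

/-- the length -/
noncomputable def wf (φ : ℕ → ℝ) (n : ℕ) : ℕ := ⌊(Real.log n) ^ 2 + φ n * Real.log n⌋₊

theorem bounds (ρ : ℕ → ℝ) (C : ℝ) (hC : 1 ≤ C) (h : Reg ρ C) (b : ℝ) : ∃ K : ℝ, 0 < K ∧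
    ∀ᶠ n : ℕ in atTop, ∀ φ : ℕ → ℝ, b ≤ φ n → φ n ≤ Real.log n →
      ρ n * ∏ m ∈ Ioc n (n + wf φ n), (1 - ρ m) ≤ K * (Real.exp (-φ n) / (n * Real.log n)) ∧
      ρ n * (Real.exp (-φ n) / n) ≤ K * (ρ n * ∏ m ∈ Ioc n (n + wf φ n), (1 - ρ m)) := by
  obtain ⟨h0, h1, h2⟩ := h
  obtain ⟨n₁, hn₁⟩ := eventually_atTop.1 h1
  refine ⟨C * Real.exp (1 + C) + Real.exp (6 * C + 2 * C ^ 2), by positivity, ?_⟩
  filter_upwards [h2, eventually_ge_atTop (max n₁ 1), tlog.eventually_ge_atTop (2 * C),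
    tlog.eventually_ge_atTop (|b| + 1)] with n g1 g2 g3 g4
  intro φ hφb hφ
  have hn0 : (0 : ℝ) < n := by exact_mod_cast (le_max_right n₁ 1).trans g2
  have hn1 : n₁ ≤ n := (le_max_left _ _).trans g2
  obtain ⟨L, hL⟩ : ∃ L, L = Real.log n := ⟨_, rfl⟩
  have hLpos : 0 < L := by rw [hL]; linarith
  have hL1 : 1 ≤ L := by rw [hL]; linarith
  obtain ⟨w, hw⟩ : ∃ w, w = wf φ n := ⟨_, rfl⟩
  rw [← hL] at g1 g3 g4 hφ ⊢
  rw [← hw]
  have hφL : 0 ≤ L + φ n := by
    have := neg_abs_le b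
    linarith
  have hpos : 0 ≤ L ^ 2 + φ n * L := by nlinarith
  have hw1 : (w : ℝ) ≤ L ^ 2 + φ n * L := by
    rw [hw]; unfold wf; rw [← hL]; exact Nat.floor_le hpos
  have hw2 : L ^ 2 + φ n * L - 1 ≤ w := by
    rw [hw]; unfold wf; rw [← hL]; exact (Nat.sub_one_lt_floor _).le
  have hw3 : (w : ℝ) ≤ 3 * L ^ 2 := by nlinarith
  have hs := abs_le.1 (g1 w hw3)
  have hwL1 : (w : ℝ) / L ≤ L + φ n := by
    rw [div_le_iff₀ hLpos]; nlinarith
  have hwL2 : L + φ n - 1 ≤ (w : ℝ) / L := by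
    rw [le_div_iff₀ hLpos]; nlinarith
  obtain ⟨s, hsd⟩ : ∃ s, s = ∑ m ∈ Ioc n (n + w), ρ m := ⟨_, rfl⟩
  rw [← hsd] at hs
  have hexpn : Real.exp (-L) = 1 / n := by
    rw [hL, Real.exp_neg, Real.exp_log hn0, one_div]
  have hρn : ρ n ≤ C / L := by rw [hL]; exact hn₁ n hn1
  have hρm : ∀ m ∈ Ioc n (n + w), ρ m ≤ C / L := by
    intro m hm
    rw [Finset.mem_Ioc] at hm
    refine (hn₁ m (by omega)).trans ?_
    have hmL : L ≤ Real.log m := by
      rw [hL]
      exact Real.log_le_log hn0 (by exact_mod_cast hm.1.le)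
    gcongr
  have hCL : C / L ≤ 1 / 2 := by
    rw [div_le_iff₀ hLpos]; linarith
  constructor
  · -- upper bound
    have e1 : ∏ m ∈ Ioc n (n + w), (1 - ρ m) ≤ Real.exp (-s) := by
      rw [hsd, ← Finset.sum_neg_distrib, Real.exp_sum]
      apply Finset.prod_le_prod
      · intro m hm
        have := hρm m hm
        linarith
      · intro m _
        have := Real.add_one_le_exp (-ρ m)
        linarith
    have e2 : Real.exp (-s) ≤ Real.exp (1 + C) * (Real.exp (-φ n) * (1 / n)) := by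
      rw [← hexpn, ← Real.exp_add, ← Real.exp_add]
      apply Real.exp_le_exp.2
      linarith [hs.1]
    calc ρ n * ∏ m ∈ Ioc n (n + w), (1 - ρ m) ≤
          C / L * (Real.exp (1 + C) * (Real.exp (-φ n) * (1 / n))) := by
          apply mul_le_mul hρn (e1.trans e2) _ (by positivity)
          apply Finset.prod_nonneg
          intro m hm
          have := hρm m hm
          linarith
      _ = C * Real.exp (1 + C) * (Real.exp (-φ n) / (n * L)) := by field_simp
      _ ≤ _ := by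
          apply mul_le_mul_of_nonneg_right _ (by positivity)
          have := Real.exp_pos (6 * C + 2 * C ^ 2)
          linarith
  · -- lower bound
    have e1 : Real.exp (-((1 + 2 * C / L) * s)) ≤ ∏ m ∈ Ioc n (n + w), (1 - ρ m) := by
      rw [hsd, Finset.mul_sum, ← Finset.sum_neg_distrib, Real.exp_sum]
      apply Finset.prod_le_prod (fun m _ => (Real.exp_pos _).le)
      intro m hm
      have k1 := hρm m hm
      refine le_trans ?_ (one_sub_ge (ρ m) (h0 m) (by linarith))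
      apply Real.exp_le_exp.2
      rw [neg_le_neg_iff]
      have k2 : ρ m * ρ m ≤ C / L * ρ m := mul_le_mul_of_nonneg_right k1 (h0 m)
      have k3 : 2 * C / L = 2 * (C / L) := by ring
      rw [k3]
      nlinarith
    have e2 : Real.exp (-φ n) * (1 / n) ≤ Real.exp (6 * C + 2 * C ^ 2) *
        Real.exp (-((1 + 2 * C / L) * s)) := by
      rw [← hexpn, ← Real.exp_add, ← Real.exp_add]
      apply Real.exp_le_exp.2
      have k1 : s ≤ L + φ n + C := by linarith [hs.2]
      have k2 : 0 ≤ 2 * C / L := by positivity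
      have k3 : 2 * C / L * s ≤ 2 * C / L * (2 * L + C) := by
        apply mul_le_mul_of_nonneg_left _ k2
        linarith
      have k4 : 2 * C / L * (2 * L + C) = 4 * C + 2 * C * (C / L) := by
        field_simp
        ring
      have k5 : 2 * C * (C / L) ≤ 2 * C * (1 / 2) := by gcongr
      nlinarith
    have e3 : Real.exp (-φ n) / n ≤ Real.exp (6 * C + 2 * C ^ 2) *
        ∏ m ∈ Ioc n (n + w), (1 - ρ m) := by
      calc Real.exp (-φ n) / n = Real.exp (-φ n) * (1 / n) := by ring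
        _ ≤ Real.exp (6 * C + 2 * C ^ 2) * Real.exp (-((1 + 2 * C / L) * s)) := e2
        _ ≤ _ := by gcongr
    have e4 : 0 ≤ ∏ m ∈ Ioc n (n + w), (1 - ρ m) := (Real.exp_pos _).le.trans e1
    calc ρ n * (Real.exp (-φ n) / n) ≤ ρ n * (Real.exp (6 * C + 2 * C ^ 2) *
          ∏ m ∈ Ioc n (n + w), (1 - ρ m)) := mul_le_mul_of_nonneg_left e3 (h0 n)
      _ = Real.exp (6 * C + 2 * C ^ 2) * (ρ n * ∏ m ∈ Ioc n (n + w), (1 - ρ m)) := by ring
      _ ≤ _ := by
          apply mul_le_mul_of_nonneg_right _ (mul_nonneg (h0 n) e4)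
          have : 0 < C * Real.exp (1 + C) := by positivity
          linarith

/-- lower bound for the sums over long intervals -/
theorem sum_long (ρ : ℕ → ℝ) (a W : ℕ) (s : ℝ) (N : ℕ)
    (h : ∀ i < N, s ≤ ∑ m ∈ Ioc (a + i * W) (a + i * W + W), ρ m) :
    N * s ≤ ∑ m ∈ Ioc a (a + N * W), ρ m := by
  induction N with
  | zero => simp
  | succ N ih =>
    have h1 := ih (fun i hi => h i (Nat.lt_succ_of_lt hi))
    have h2 := h N (Nat.lt_succ_self N)
    have h3 : a + (N + 1) * W = a + N * W + W := by ring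
    rw [h3, ← Finset.sum_Ioc_consecutive (fun m => ρ m) (Nat.le_add_right a (N * W))
      (Nat.le_add_right (a + N * W) W)]
    push_cast
    linarith

theorem dyadic (ρ : ℕ → ℝ) (C : ℝ) (hC : 1 ≤ C) (h : Reg ρ C) : ∀ᶠ k : ℕ in atTop,
    (2 : ℝ) ^ k / (16 * k) ≤ ∑ m ∈ Ioc (2 ^ k) (2 ^ (k + 1)), ρ m := by
  obtain ⟨h0, h1, h2⟩ := h
  obtain ⟨n₁, hn₁⟩ := eventually_atTop.1 h2
  have e1 : ∀ᶠ k : ℕ in atTop, n₁ ≤ 2 ^ k := by
    filter_upwards [eventually_ge_atTop n₁] with k hk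
    exact hk.trans Nat.lt_two_pow_self.le
  have e2 : ∀ᶠ k : ℕ in atTop, (k : ℝ) ^ 2 ≤ (2 : ℝ) ^ k / 4 := by
    have h3 : Tendsto (fun k : ℕ => (k : ℝ) ^ 2 / 2 ^ k) atTop (𝓝 0) :=
      tendsto_pow_const_div_const_pow_of_one_lt 2 (by norm_num)
    filter_upwards [h3.eventually (gt_mem_nhds (show (0 : ℝ) < 1 / 4 by norm_num))] with k hk
    rw [div_lt_iff₀ (by positivity)] at hk
    linarith
  filter_upwards [e1, e2, eventually_ge_atTop (⌈32 * C⌉₊ + 8)] with k g1 g2 g3
  have hk8 : (8 : ℝ) ≤ k := by exact_mod_cast (by omega : 8 ≤ k)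
  have hkC : 32 * C ≤ k := by
    have : (⌈32 * C⌉₊ : ℝ) ≤ k := by exact_mod_cast (by omega : ⌈32 * C⌉₊ ≤ k)
    exact (Nat.le_ceil _).trans this
  obtain ⟨W, hW⟩ : ∃ W : ℕ, W = k * k / 4 := ⟨_, rfl⟩
  have hW1 : 4 * W ≤ k * k := by omega
  have hW2 : k * k < 4 * W + 4 := by omega
  have hW1R : 4 * (W : ℝ) ≤ k * k := by exact_mod_cast hW1
  have hW2R : (k : ℝ) * k < 4 * W + 4 := by exact_mod_cast hW2
  have hWpos : 0 < W := by
    have : (0 : ℝ) < W := by nlinarith
    exact_mod_cast this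
  obtain ⟨N, hN⟩ : ∃ N : ℕ, N = 2 ^ k / W := ⟨_, rfl⟩
  have hNW : N * W ≤ 2 ^ k := by rw [hN]; exact Nat.div_mul_le_self _ _
  have hNW2 : 2 ^ k < N * W + W := by
    rw [hN]
    have := Nat.lt_div_mul_add hWpos (a := 2 ^ k)
    exact this
  have hlk : ∀ n : ℕ, 2 ^ k ≤ n → n ≤ 2 ^ (k + 1) →
      (k : ℝ) * (69 / 100) ≤ Real.log n ∧ Real.log n ≤ k := by
    intro n h3 h4
    have hn0 : (0 : ℝ) < n := by
      have : 0 < 2 ^ k := by positivity
      exact_mod_cast (by omega : 0 < n)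
    constructor
    · have h5 : Real.log ((2 : ℝ) ^ k) ≤ Real.log n :=
        Real.log_le_log (by positivity) (by exact_mod_cast h3)
      rw [Real.log_pow] at h5
      have := Real.log_two_gt_d9
      nlinarith
    · have h5 : Real.log n ≤ Real.log ((2 : ℝ) ^ (k + 1)) :=
        Real.log_le_log hn0 (by exact_mod_cast h4)
      rw [Real.log_pow] at h5
      have := Real.log_two_lt_d9
      push_cast at h5
      nlinarith
  have h3 : ∀ i < N, (W : ℝ) / (2 * k) ≤ ∑ m ∈ Ioc (2 ^ k + i * W) (2 ^ k + i * W + W), ρ m := by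
    intro i hi
    have hiW : i * W + W ≤ N * W := by
      have : (i + 1) * W ≤ N * W := Nat.mul_le_mul_right W hi
      linarith
    have hpow : 2 ^ (k + 1) = 2 ^ k + 2 ^ k := by rw [pow_succ]; ring
    obtain ⟨l1, l2⟩ := hlk (2 ^ k + i * W) (Nat.le_add_right _ _) (by omega)
    obtain ⟨n, hn⟩ : ∃ n, n = 2 ^ k + i * W := ⟨_, rfl⟩
    rw [← hn] at l1 l2 ⊢
    have h4 := hn₁ n (by omega) W (by nlinarith)
    have h5 := (abs_le.1 h4).1
    have hlpos : 0 < Real.log n := by nlinarith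
    have h6 : (W : ℝ) / k ≤ W / Real.log n := by gcongr
    have h7 : C ≤ (W : ℝ) / (2 * k) := by
      rw [le_div_iff₀ (by linarith)]
      nlinarith
    have h8 : (W : ℝ) / k = W / (2 * k) + W / (2 * k) := by
      field_simp
      norm_num
    linarith
  have h4 := sum_long ρ (2 ^ k) W _ N h3
  have h5 : ∑ m ∈ Ioc (2 ^ k) (2 ^ k + N * W), ρ m ≤ ∑ m ∈ Ioc (2 ^ k) (2 ^ (k + 1)), ρ m := by
    apply Finset.sum_le_sum_of_subset_of_nonneg
    · apply Finset.Ioc_subset_Ioc_right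
      have hpow : 2 ^ (k + 1) = 2 ^ k + 2 ^ k := by rw [pow_succ]; ring
      omega
    · intro i _ _
      exact h0 i
  refine le_trans ?_ (h4.trans h5)
  have h6 : (2 : ℝ) ^ k ≤ N * W + W := by exact_mod_cast hNW2.le
  have h7 : (W : ℝ) ≤ 2 ^ k / 2 := by nlinarith
  rw [div_le_iff₀ (by linarith)]
  have h8 : (N : ℝ) * (W / (2 * k)) * (16 * k) = 8 * (N * W) := by
    field_simp
    ring
  rw [h8]
  linarith

end Pool.Agent.U839.Sv
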