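import Mathlib
import Pool.Agent.U839.Thin.Prob
import Pool.Agent.U839.Thin.Main
import Pool.Agent.U839.Thin.Mix

set_option autoImplicit false

/-! # Empty windows of random sets with independent elements -/

open MeasureTheory ProbabilityTheory Filter Finset Topology

namespace Pool.Agent.U839.Sv

open Pool.Agent.U839.Thin (ae_complete residue compl_indep one_sub_ge tlog)

variable {Ω : Type*} [MeasurableSpace Ω] {μ : Measure Ω} [IsProbabilityMeasure μ]

/-- the length of a window -/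
noncomputable def wn (c : ℝ) (n : ℕ) : ℕ := ⌊c * (Real.log n) ^ 2⌋₊

theorem log_sq_small (c η : ℝ) (hc : 0 < c) (hη : 0 < η) : ∀ᶠ x : ℕ in atTop,
    c * (Real.log x) ^ 2 + 1 ≤ (x : ℝ) ^ η := by
  have h1 := (isLittleO_log_rpow_atTop (r := η / 4) (by positivity)).bound
    (show (0 : ℝ) < 1 by norm_num)
  have h2 : ∀ᶠ x : ℝ in atTop, c + 1 ≤ x ^ (η / 2) :=
    (tendsto_rpow_atTop (by positivity)).eventually_ge_atTop _
  filter_upwards [tendsto_natCast_atTop_atTop.eventually h1,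
    tendsto_natCast_atTop_atTop.eventually h2, eventually_ge_atTop 1] with x g1 g2 g3
  have hx1 : (1 : ℝ) ≤ x := by exact_mod_cast g3
  have hx0 : (0 : ℝ) < x := by linarith
  rw [Real.norm_of_nonneg (Real.log_nonneg hx1), Real.norm_of_nonneg (by positivity), one_mul] at g1
  have g4 : (Real.log x) ^ 2 ≤ ((x : ℝ) ^ (η / 4)) ^ 2 :=
    pow_le_pow_left₀ (Real.log_nonneg hx1) g1 2
  have g5 : ((x : ℝ) ^ (η / 4)) ^ 2 = (x : ℝ) ^ (η / 2) := by
    rw [← Real.rpow_natCast, ← Real.rpow_mul hx0.le]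
    congr 1
    push_cast
    ring
  rw [g5] at g4
  have g6 : (1 : ℝ) ≤ (x : ℝ) ^ (η / 2) := Real.one_le_rpow hx1 (by positivity)
  calc c * (Real.log x) ^ 2 + 1 ≤ c * (x : ℝ) ^ (η / 2) + 1 * (x : ℝ) ^ (η / 2) := by
        rw [one_mul]; gcongr
    _ = (c + 1) * (x : ℝ) ^ (η / 2) := by ring
    _ ≤ (x : ℝ) ^ (η / 2) * (x : ℝ) ^ (η / 2) := by gcongr
    _ = (x : ℝ) ^ η := by
        rw [← Real.rpow_add hx0]
        congr 1
        ring

/-- empty windows -/
theorem low {E : ℕ → Set Ω} (hm : ∀ n, MeasurableSet (E n)) (hE : iIndepSet E μ) (ρ : ℕ → ℝ)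
    (hρ : ∀ᶠ n : ℕ in atTop, μ.real (E n) = ρ n) (c lam η : ℝ) (hc : 0 < c)
    (hη : 0 < η) (hρs : ∀ᶠ n : ℕ in atTop, 0 ≤ ρ n ∧ 2 * ρ n ≤ η) (hη1 : η ≤ 1)
    (hl : (1 + η) * lam + 3 * η ≤ 1) (G : ℕ → Prop)
    (h : ∀ᶠ x : ℕ in atTop, G x → ∃ S : Finset ℕ, (∀ n ∈ S, x < n ∧ n ≤ 2 * x ∧
      ∑ m ∈ Ioc n (n + wn c x), ρ m ≤ lam * Real.log x) ∧ (x : ℝ) ^ (1 - η) ≤ S.card) :
    ∀ᵐ ω ∂μ, ∀ᶠ x : ℕ in atTop, G x → ∃ n : ℕ, x < n ∧ n ≤ 2 * x ∧
      ∀ m : ℕ, n < m → m ≤ n + wn c x → ω ∉ E m := by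
  classical
  have key := ae_complete (μ := μ) (fun p => (hm p).compl) (compl_indep hE) η hη
    (fun x i T => G x → (x < i ∧ i ≤ 2 * x ∧ T = Ioc i (i + wn c x))) ?_
  · filter_upwards [key] with ω hω
    filter_upwards [hω] with x hx hG
    obtain ⟨i, T, g1, g2⟩ := hx
    obtain ⟨h1, h2, h3⟩ := g1 hG
    refine ⟨i, h1, h2, fun m h4 h5 => ?_⟩
    have := g2 m (by rw [h3, Finset.mem_Ioc]; exact ⟨h4, h5⟩)
    exact this
  · obtain ⟨n₁, hn₁⟩ := eventually_atTop.1 (hρ.and hρs)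
    filter_upwards [h, log_sq_small c η hc hη, eventually_ge_atTop (max n₁ 1),
      tlog.eventually_ge_atTop 0] with x g1 g2 g3 g4
    have hx1 : (1 : ℝ) ≤ x := by exact_mod_cast (le_max_right _ _).trans g3
    have hx0 : (0 : ℝ) < x := by linarith
    by_cases hG : G x
    · obtain ⟨S, hS1, hS2⟩ := g1 hG
      obtain ⟨Y, hY⟩ : ∃ Y, Y = wn c x := ⟨_, rfl⟩
      rw [← hY] at hS1
      obtain ⟨r, hr⟩ := residue S (Y + 1) (Nat.succ_pos _)
      obtain ⟨S', hS'⟩ : ∃ S', S' = S.filter (fun n => n % (Y + 1) = r) := ⟨_, rfl⟩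
      rw [← hS'] at hr
      refine ⟨S', fun i => Ioc i (i + Y), ?_, ?_, ?_⟩
      · intro i hi j hj hij
        rw [hS', Finset.mem_filter] at hi hj
        rw [Finset.disjoint_left]
        intro m hmi hmj
        rw [Finset.mem_Ioc] at hmi hmj
        have h5 : i ≡ j [MOD (Y + 1)] := by
          unfold Nat.ModEq
          rw [hi.2, hj.2]
        rcases Nat.lt_or_gt_of_ne hij with h6 | h6
        · have h7 := (Nat.modEq_iff_dvd' h6.le).1 h5
          have h8 := Nat.le_of_dvd (by omega) h7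
          omega
        · have h7 := (Nat.modEq_iff_dvd' h6.le).1 h5.symm
          have h8 := Nat.le_of_dvd (by omega) h7
          omega
      · intro i hi _
        rw [hS', Finset.mem_filter] at hi
        obtain ⟨h1, h2, -⟩ := hS1 i hi.1
        exact ⟨h1, h2, by rw [hY]⟩
      · -- the sum
        have hprod : ∀ n ∈ S', (x : ℝ) ^ (-((1 + η) * lam)) ≤
            ∏ m ∈ Ioc n (n + Y), μ.real (E m)ᶜ := by
          intro n hn
          rw [hS', Finset.mem_filter] at hn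
          obtain ⟨h1, h2, h3⟩ := hS1 n hn.1
          have hfac : ∀ m ∈ Ioc n (n + Y), Real.exp (-((1 + η) * ρ m)) ≤ μ.real (E m)ᶜ := by
            intro m hmm
            rw [Finset.mem_Ioc] at hmm
            have hmn : n₁ ≤ m := by
              have : n₁ ≤ x := (le_max_left _ _).trans g3
              omega
            obtain ⟨e1, e2, e3⟩ := hn₁ m hmn
            rw [probReal_compl_eq_one_sub (hm m), e1]
            refine le_trans ?_ (one_sub_ge (ρ m) e2 (by linarith))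
            apply Real.exp_le_exp.2
            rw [neg_le_neg_iff]
            nlinarith
          refine le_trans ?_ (Finset.prod_le_prod (fun m _ => (Real.exp_pos _).le) hfac)
          rw [← Real.exp_sum, Finset.sum_neg_distrib, ← Finset.mul_sum, Real.rpow_def_of_pos hx0]
          apply Real.exp_le_exp.2
          have h5 : (1 + η) * ∑ m ∈ Ioc n (n + Y), ρ m ≤ (1 + η) * (lam * Real.log x) := by
            gcongr
          linarith
        have hcard : (x : ℝ) ^ (1 - 2 * η) ≤ S'.card := by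
          have h1 : (S.card : ℝ) ≤ ((Y : ℝ) + 1) * S'.card := by exact_mod_cast hr
          have h2 : (Y : ℝ) + 1 ≤ (x : ℝ) ^ η := by
            refine le_trans ?_ g2
            rw [hY]
            have := Nat.floor_le (show 0 ≤ c * (Real.log x) ^ 2 by positivity)
            unfold wn
            linarith
          have h3 : (x : ℝ) ^ (1 - η) = (x : ℝ) ^ η * (x : ℝ) ^ (1 - 2 * η) := by
            rw [← Real.rpow_add hx0]
            congr 1
            ring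
          have h4 : 0 < (x : ℝ) ^ η := Real.rpow_pos_of_pos hx0 _
          have h5 : (x : ℝ) ^ η * (x : ℝ) ^ (1 - 2 * η) ≤ (x : ℝ) ^ η * S'.card := by
            rw [← h3]
            refine hS2.trans (h1.trans ?_)
            gcongr
          exact le_of_mul_le_mul_left h5 h4
        calc (x : ℝ) ^ η ≤ (x : ℝ) ^ (1 - 2 * η - (1 + η) * lam) :=
              Real.rpow_le_rpow_of_exponent_le hx1 (by linarith)
          _ = (x : ℝ) ^ (1 - 2 * η) * (x : ℝ) ^ (-((1 + η) * lam)) := by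
              rw [← Real.rpow_add hx0]
              congr 1
          _ ≤ S'.card * (x : ℝ) ^ (-((1 + η) * lam)) := by gcongr
          _ = ∑ n ∈ S', (x : ℝ) ^ (-((1 + η) * lam)) := by rw [Finset.sum_const, nsmul_eq_mul]
          _ ≤ _ := Finset.sum_le_sum hprod
    · refine ⟨Finset.range ⌈(x : ℝ) ^ η⌉₊, fun _ => ∅, fun _ _ _ _ _ => disjoint_empty_left _,
        fun i _ h => absurd h hG, ?_⟩
      simp only [Finset.prod_empty, Finset.sum_const, Finset.card_range, nsmul_eq_mul, mul_one]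
      exact Nat.le_ceil _

/-- elements in all windows -/
theorem up {E : ℕ → Set Ω} (hm : ∀ n, MeasurableSet (E n)) (hE : iIndepSet E μ) (ρ : ℕ → ℝ)
    (hρ : ∀ᶠ n : ℕ in atTop, μ.real (E n) = ρ n) (w : ℕ → ℕ) (lam : ℝ) (hlam : 1 < lam)
    (h : ∀ᶠ n : ℕ in atTop, lam * Real.log n ≤ ∑ m ∈ Ioc n (n + w n), ρ m) :
    ∀ᵐ ω ∂μ, ∀ᶠ n : ℕ in atTop, ∃ m : ℕ, n < m ∧ m ≤ n + w n ∧ ω ∈ E m := by
  classical
  obtain ⟨bad, hbad⟩ : ∃ bad : ℕ → Set Ω, bad = fun n => ⋂ m ∈ Ioc n (n + w n), (E m)ᶜ := ⟨_, rfl⟩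
  obtain ⟨n₁, hn₁⟩ := eventually_atTop.1 hρ
  have hb : ∀ᶠ n : ℕ in atTop, μ.real (bad n) ≤ 1 / (n : ℝ) ^ lam := by
    filter_upwards [h, eventually_ge_atTop (max n₁ 1)] with n g1 g2
    have hn0 : (0 : ℝ) < n := by exact_mod_cast (le_max_right n₁ 1).trans g2
    have h3 : μ.real (bad n) = ∏ m ∈ Ioc n (n + w n), μ.real (E m)ᶜ := by
      have := (compl_indep hE).meas_biInter (Ioc n (n + w n))
      rw [hbad]
      simp only [measureReal_def]
      rw [this, ENNReal.toReal_prod]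
    rw [h3]
    have h4 : ∀ m ∈ Ioc n (n + w n), μ.real (E m)ᶜ ≤ Real.exp (-ρ m) := by
      intro m hmm
      rw [Finset.mem_Ioc] at hmm
      rw [probReal_compl_eq_one_sub (hm m), hn₁ m (by
        have : n₁ ≤ n := (le_max_left _ _).trans g2
        omega)]
      have := Real.add_one_le_exp (-ρ m)
      linarith
    refine (Finset.prod_le_prod (fun m _ => measureReal_nonneg) h4).trans ?_
    rw [← Real.exp_sum, Finset.sum_neg_distrib, Real.rpow_def_of_pos hn0, one_div, ← Real.exp_neg]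
    apply Real.exp_le_exp.2
    linarith
  obtain ⟨n₀, hn₀⟩ := eventually_atTop.1 hb
  obtain ⟨bad', hbad'⟩ : ∃ bad' : ℕ → Set Ω, bad' = fun n => if n₀ ≤ n then bad n else ∅ := ⟨_, rfl⟩
  have hsum : Summable (fun n : ℕ => 1 / (n : ℝ) ^ lam) :=
    Real.summable_one_div_nat_rpow.2 hlam
  have htot : ∑' n, μ (bad' n) ≠ ⊤ := by
    have h5 : ∀ n, μ (bad' n) ≤ ENNReal.ofReal (1 / (n : ℝ) ^ lam) := by
      intro n
      rw [hbad']
      simp only
      split_ifs with hn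
      · rw [← ENNReal.ofReal_toReal (measure_ne_top μ (bad n))]
        exact ENNReal.ofReal_le_ofReal (hn₀ n hn)
      · simp
    exact ne_top_of_le_ne_top hsum.tsum_ofReal_ne_top (ENNReal.tsum_le_tsum h5)
  filter_upwards [ae_eventually_notMem htot] with ω hω
  filter_upwards [hω, eventually_ge_atTop n₀] with n hn hnn
  rw [hbad'] at hn
  simp only [if_pos hnn] at hn
  rw [hbad] at hn
  simp only [Set.mem_iInter, not_forall] at hn
  obtain ⟨m, hm1, hm2⟩ := hn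
  rw [Set.notMem_compl_iff] at hm2
  rw [Finset.mem_Ioc] at hm1
  exact ⟨m, hm1.1, hm1.2, hm2⟩

/-- the largest gap `q' - q` between consecutive elements `q ≤ X` and `q'` of `Q` -/
noncomputable def GS (Q : Set ℕ) (X : ℕ) : ℕ :=
  sSup {g | ∃ k, Nat.nth (· ∈ Q) k ≤ X ∧ g = Nat.nth (· ∈ Q) (k + 1) - Nat.nth (· ∈ Q) k}

theorem GS_bdd (Q : Set ℕ) (hQ : Q.Infinite) (X : ℕ) : BddAbove
    {g | ∃ k, Nat.nth (· ∈ Q) k ≤ X ∧ g = Nat.nth (· ∈ Q) (k + 1) - Nat.nth (· ∈ Q) k} := by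
  have hQ' : (Set.ofPred (· ∈ Q)).Infinite := hQ
  have hmono := Nat.nth_strictMono hQ'
  have hfin : {g | ∃ k, Nat.nth (· ∈ Q) k ≤ X ∧
      g = Nat.nth (· ∈ Q) (k + 1) - Nat.nth (· ∈ Q) k}.Finite := by
    apply ((Set.finite_Iic X).image (fun k => Nat.nth (· ∈ Q) (k + 1) - Nat.nth (· ∈ Q) k)).subset
    rintro g ⟨k, hk, rfl⟩
    exact ⟨k, (hmono.id_le k).trans hk, rfl⟩
  exact hfin.bddAbove

theorem GS_ge (Q : Set ℕ) (hQ : Q.Infinite) (t h X a : ℕ) (ha : a ∈ Q) (hat : a ≤ t)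
    (htX : t ≤ X) (hemp : ∀ m ∈ Q, ¬(t < m ∧ m ≤ t + h)) : h ≤ GS Q X := by
  classical
  have hQ' : (Set.ofPred (· ∈ Q)).Infinite := hQ
  obtain ⟨k, hk⟩ : ∃ k, k = Nat.count (· ∈ Q) (t + 1) := ⟨_, rfl⟩
  have hk1 : 1 ≤ k := by
    rw [hk]
    have h1 : Nat.count (· ∈ Q) a < Nat.count (· ∈ Q) (t + 1) :=
      (Nat.lt_nth_iff_count_lt hQ').2 (by
        rw [Nat.nth_count (p := (· ∈ Q)) ha]
        omega)
    omega
  have hkk : k - 1 + 1 = k := by omega
  have h1 : Nat.nth (· ∈ Q) (k - 1) < t + 1 := Nat.nth_lt_of_lt_count (by omega)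
  have h2 : t + 1 ≤ Nat.nth (· ∈ Q) k := by rw [hk]; exact Nat.le_nth_count hQ' (t + 1)
  have h4 : Nat.nth (· ∈ Q) k ∈ Q := Nat.nth_mem_of_infinite hQ' _
  have h5 : t + h < Nat.nth (· ∈ Q) k := by
    by_contra hcon
    exact hemp _ h4 ⟨by omega, by omega⟩
  have h6 : Nat.nth (· ∈ Q) k - Nat.nth (· ∈ Q) (k - 1) ≤ GS Q X := by
    apply le_csSup (GS_bdd Q hQ X)
    refine ⟨k - 1, by omega, ?_⟩
    rw [hkk]
  omega

theorem GS_le (Q : Set ℕ) (hQ : Q.Infinite) (c : ℝ) (hc : 0 < c) (n₀ : ℕ) (hn₀ : 1 ≤ n₀)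
    (h : ∀ n ≥ n₀, ∃ m ∈ Q, n < m ∧ m ≤ n + wn c n) (X : ℕ) :
    GS Q X ≤ max (n₀ + wn c n₀) (wn c X) := by
  classical
  have hQ' : (Set.ofPred (· ∈ Q)).Infinite := hQ
  have hmono := Nat.nth_strictMono hQ'
  apply csSup_le'
  rintro g ⟨k, hk, rfl⟩
  obtain ⟨a, ha⟩ : ∃ a, a = Nat.nth (· ∈ Q) k := ⟨_, rfl⟩
  obtain ⟨b, hb⟩ : ∃ b, b = Nat.nth (· ∈ Q) (k + 1) := ⟨_, rfl⟩
  rw [← ha, ← hb]
  rw [← ha] at hk
  have hnext : ∀ m ∈ Q, a < m → b ≤ m := by
    intro m hm ham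
    rw [ha] at ham
    have h3 : k < Nat.count (· ∈ Q) m := (Nat.lt_nth_iff_count_lt hQ').2 ham
    have h4 : Nat.nth (· ∈ Q) (Nat.count (· ∈ Q) m) = m := Nat.nth_count (p := (· ∈ Q)) hm
    rw [← h4, hb]
    exact hmono.monotone h3
  by_cases han : a < n₀
  · obtain ⟨m, hm, h1, h2⟩ := h n₀ le_rfl
    have h3 := hnext m hm (by omega)
    exact le_max_of_le_left (by omega)
  · push Not at han
    obtain ⟨m, hm, h1, h2⟩ := h a han
    have h3 := hnext m hm h1
    apply le_max_of_le_right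
    have h4 : wn c a ≤ wn c X := by
      apply Nat.floor_le_floor
      have h5 : Real.log a ≤ Real.log X :=
        Real.log_le_log (by exact_mod_cast (by omega : 0 < a)) (by exact_mod_cast (by omega : a ≤ X))
      have h6 : 0 ≤ Real.log a := Real.log_natCast_nonneg a
      gcongr
    omega

end Pool.Agent.U839.Sv
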