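import Mathlib
import Pool.Agent.U839.Sv.Prob
import Pool.Agent.U839.Sv.Poor
import Pool.Agent.H305R2.MertensE

set_option autoImplicit false

/-! # Cramér's constant in sieved random models -/

open MeasureTheory ProbabilityTheory Filter Finset Topology

namespace Pool.Agent.U839.Sv

open Pool.Agent.U839.Thin (tlog)

variable {Ω : Type*} [MeasurableSpace Ω] {μ : Measure Ω} [IsProbabilityMeasure μ]

theorem W_bound : ∃ C : ℝ, 0 < C ∧ ∀ t : ℕ, W t ≤ C + C * Real.log t := by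
  have h := Pool.Agent.H305R2.mertens_three
  have h0 : ∀ N : ℕ, (∏ p ∈ (Finset.Icc 1 N).filter Nat.Prime, (1 - (p : ℝ)⁻¹)⁻¹) = W N := by
    intro N
    unfold W
    simp only [one_div]
  simp only [h0] at h
  have h1 : ∀ᶠ N : ℕ in atTop, W N / Real.log N < Real.exp Real.eulerMascheroniConstant + 1 :=
    h.eventually (gt_mem_nhds (by linarith))
  obtain ⟨N0, hN0⟩ := eventually_atTop.1 (h1.and (tlog.eventually_gt_atTop 0))
  have hW0 := W_pos N0
  have he := Real.exp_pos Real.eulerMascheroniConstant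
  refine ⟨W N0 + (Real.exp Real.eulerMascheroniConstant + 1), by linarith, ?_⟩
  intro x
  have hx0 : 0 ≤ Real.log (x : ℝ) := Real.log_natCast_nonneg x
  have k1 : 0 ≤ W N0 * Real.log x := mul_nonneg hW0.le hx0
  have k2 : 0 ≤ (Real.exp Real.eulerMascheroniConstant + 1) * Real.log x := by positivity
  rcases le_total x N0 with h2 | h2
  · have := W_mono h2
    nlinarith
  · obtain ⟨g1, g2⟩ := hN0 x h2
    rw [div_lt_iff₀ g2] at g1
    nlinarith

theorem fT_le (T : ℕ → ℕ) (n : ℕ) : fT T n ≤ W (T n) := by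
  unfold fT
  split_ifs
  · exact le_rfl
  · exact (W_pos _).le

/-- the densities tend to `0` -/
theorem dens (T : ℕ → ℕ) (hTs : ∀ ε : ℝ, 0 < ε → ∀ᶠ n : ℕ in atTop, (T n : ℝ) ≤ (n : ℝ) ^ ε)
    (η : ℝ) (hη : 0 < η) : ∀ᶠ n : ℕ in atTop, fT T n / Real.log n ≤ η := by
  obtain ⟨C, hC, hW⟩ := W_bound
  filter_upwards [hTs (η / (2 * C)) (by positivity), tlog.eventually_ge_atTop (2 * C / η),
    eventually_gt_atTop 1] with n h1 h2 h3
  have hn1 : (1 : ℝ) < n := by exact_mod_cast h3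
  have hn0 : (0 : ℝ) < n := by linarith
  have hL : 0 < Real.log n := Real.log_pos hn1
  rw [div_le_iff₀ hL]
  refine (fT_le T n).trans ((hW (T n)).trans ?_)
  have h4 : Real.log (T n) ≤ η / (2 * C) * Real.log n := by
    rcases Nat.eq_zero_or_pos (T n) with h5 | h5
    · rw [h5, Nat.cast_zero, Real.log_zero]
      positivity
    · have h6 : (0 : ℝ) < T n := by exact_mod_cast h5
      have := Real.log_le_log h6 h1
      rwa [Real.log_rpow hn0] at this
  have h5 : C ≤ η / 2 * Real.log n := by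
    rw [div_le_iff₀ hη] at h2
    linarith
  have h6 : C * Real.log (T n) ≤ C * (η / (2 * C) * Real.log n) := by gcongr
  have h7 : C * (η / (2 * C) * Real.log n) = η / 2 * Real.log n := by field_simp
  linarith

/-- the random model -/
structure Sieved (μ : Measure Ω) (E : ℕ → Set Ω) (T : ℕ → ℕ) : Prop where
  meas : ∀ n, MeasurableSet (E n)
  indep : iIndepSet E μ
  law : ∀ n : ℕ, μ.real (E n) = min 1 (fT T n / Real.log n)

omit [IsProbabilityMeasure μ] in
theorem law' {E : ℕ → Set Ω} {T : ℕ → ℕ} (h : Sieved μ E T)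
    (hTs : ∀ ε : ℝ, 0 < ε → ∀ᶠ n : ℕ in atTop, (T n : ℝ) ≤ (n : ℝ) ^ ε) :
    ∀ᶠ n : ℕ in atTop, μ.real (E n) = fT T n / Real.log n := by
  filter_upwards [dens T hTs 1 one_pos] with n hn
  rw [h.law n, min_eq_right hn]

theorem rho_small (T : ℕ → ℕ) (hTs : ∀ ε : ℝ, 0 < ε → ∀ᶠ n : ℕ in atTop, (T n : ℝ) ≤ (n : ℝ) ^ ε)
    (η : ℝ) (hη : 0 < η) : ∀ᶠ n : ℕ in atTop, 0 ≤ fT T n / Real.log n ∧
      2 * (fT T n / Real.log n) ≤ η := by
  filter_upwards [dens T hTs (η / 2) (by positivity)] with n hn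
  exact ⟨div_nonneg (fT_nonneg T n) (Real.log_natCast_nonneg n), by linarith⟩

/-- sums over intervals -/
theorem sum_window (R : ℕ) (hR : 13 ≤ R) (T : ℕ → ℕ) (hT : Monotone T) (n K t : ℕ)
    (ht : T (n + K) ≤ t) :
    |∑ m ∈ Ioc n (n + K), fT T m - K| ≤
      2 ^ 25 * (1 / 2) ^ (2 * R) * K + ((t : ℝ) + 2) ^ (8 * R + 18) := by
  have h := stretch R hR T hT ∅ (by simp) 0 n K (by simp)
  simp only [Finset.prod_empty, inv_one, one_mul] at h
  have h1 : ∑ m ∈ Ioc n (n + K), fT T m = ∑ j ∈ Ioc n (n + K), wt T ∅ 0 j :=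
    Finset.sum_congr rfl (fun m _ => fT_eq_wt T m)
  rw [h1]
  refine h.trans ?_
  have h2 := err_le R (T (n + K))
  have h3 : ((T (n + K) : ℝ) + 2) ^ (8 * R + 18) ≤ ((t : ℝ) + 2) ^ (8 * R + 18) := by
    apply pow_le_pow_left₀ (by positivity)
    have : (T (n + K) : ℝ) ≤ t := by exact_mod_cast ht
    linarith
  linarith

/-- infinitely many elements -/
theorem inf {E : ℕ → Set Ω} {T : ℕ → ℕ} (h : Sieved μ E T) (hT : Monotone T)
    (hTs : ∀ ε : ℝ, 0 < ε → ∀ᶠ n : ℕ in atTop, (T n : ℝ) ≤ (n : ℝ) ^ ε) :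
    ∀ᵐ ω ∂μ, {n | ω ∈ E n}.Infinite := by
  obtain ⟨R, hR, hRδ⟩ := exists_R (1 / 4) (by norm_num)
  have h1 := up (μ := μ) h.meas h.indep (fun n => fT T n / Real.log n) (law' h hTs) (fun n => n) 2
    (by norm_num) (by
      filter_upwards [T_small T hTs (8 * R + 18) (by omega) (1 / 2) (by norm_num),
        log_sq_small 100 (1 / 2) (by norm_num) (by norm_num), tlog.eventually_ge_atTop 1,
        eventually_ge_atTop 256] with n g1 g2 g3 g4
      have hn1 : (256 : ℝ) ≤ n := by exact_mod_cast g4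
      have hn0 : (0 : ℝ) < n := by linarith
      have h2 := sum_window R hR T hT n n (T (3 * n)) (hT (by omega))
      have h3 := (abs_le.1 h2).1
      obtain ⟨s, hs⟩ : ∃ s : ℝ, s = (n : ℝ) ^ (1 / 2 : ℝ) := ⟨_, rfl⟩
      have hs2 : s * s = n := by
        rw [hs, ← Real.rpow_add hn0]
        norm_num
      have hs16 : 16 ≤ s := by
        have h0 : 0 ≤ s := by rw [hs]; positivity
        nlinarith
      rw [← hs] at g1 g2
      have h4 : 1 / 2 * (n : ℝ) ≤ ∑ m ∈ Ioc n (n + n), fT T m := by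
        have h5 : (2 : ℝ) ^ 25 * (1 / 2) ^ (2 * R) * n ≤ 1 / 4 * n := by gcongr
        nlinarith
      obtain ⟨L, hL⟩ : ∃ L, L = Real.log n := ⟨_, rfl⟩
      rw [← hL] at g2 g3 ⊢
      have hlog2 : Real.log (2 * n) ≤ L + 1 := by
        rw [Real.log_mul (by norm_num) hn0.ne', hL]
        have := Real.log_two_lt_d9
        linarith
      have h5 : (∑ m ∈ Ioc n (n + n), fT T m) / (L + 1) ≤
          ∑ m ∈ Ioc n (n + n), fT T m / Real.log m := by
        rw [Finset.sum_div]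
        apply Finset.sum_le_sum
        intro m hm
        rw [Finset.mem_Ioc] at hm
        have hm1 : (1 : ℝ) < m := by exact_mod_cast (by omega : 1 < m)
        apply div_le_div_of_nonneg_left (fT_nonneg T m) (Real.log_pos hm1)
        refine le_trans ?_ hlog2
        apply Real.log_le_log (by linarith)
        have : (m : ℝ) ≤ ((n + n : ℕ) : ℝ) := by exact_mod_cast hm.2
        push_cast at this
        linarith
      refine le_trans ?_ h5
      rw [le_div_iff₀ (by linarith)]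
      have h6 : 100 * L ^ 2 ≤ s := by linarith
      have h7 : s ≤ n := by nlinarith
      nlinarith)
  filter_upwards [h1] with ω hω
  obtain ⟨N, hN⟩ := eventually_atTop.1 hω
  rw [Set.infinite_iff_exists_gt]
  intro a
  obtain ⟨m, h2, h3, h4⟩ := hN (max a N) (le_max_right _ _)
  exact ⟨m, h4, lt_of_le_of_lt (le_max_left _ _) h2⟩

/-- windows without elements give large `G` -/
theorem GS_low (Q : Set ℕ) (hQ : Q.Infinite) (c c' : ℝ) (hc' : 0 < c') (hcc : c' < c) (P : ℕ → Prop)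
    (h : ∀ᶠ x : ℕ in atTop, P x → ∃ n : ℕ, x < n ∧ n ≤ 2 * x ∧
      ∀ m : ℕ, n < m → m ≤ n + wn c x → m ∉ Q) :
    ∀ᶠ X : ℕ in atTop, P (X / 2) → c' * (Real.log X) ^ 2 ≤ GS Q X := by
  obtain ⟨a, ha⟩ := hQ.nonempty
  have hdiv : Tendsto (fun X : ℕ => X / 2) atTop atTop := Nat.tendsto_div_const_atTop (by norm_num)
  have e1 : ∀ᶠ X : ℕ in atTop, 8 * (c + 1) / (c - c') ≤ Real.log X := tlog.eventually_ge_atTop _
  filter_upwards [hdiv.eventually h, hdiv.eventually (eventually_ge_atTop (max a 1)), e1,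
    tlog.eventually_ge_atTop 4] with X g1 g2 g3 g4 g5
  obtain ⟨n, h1, h2, h3⟩ := g1 g5
  have ha2 : a ≤ X / 2 := (le_max_left _ _).trans g2
  have hx1 : 1 ≤ X / 2 := (le_max_right _ _).trans g2
  have h4 := GS_ge Q hQ n (wn c (X / 2)) X a ha (by omega) (by omega)
    (fun m hm hmm => h3 m hmm.1 hmm.2 hm)
  have h5 : (wn c (X / 2) : ℝ) ≤ GS Q X := by exact_mod_cast h4
  refine le_trans ?_ h5
  have hX0 : (0 : ℝ) < X := by exact_mod_cast (by omega : 0 < X)
  have h6 : Real.log X - 2 ≤ Real.log ((X / 2 : ℕ) : ℝ) := by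
    have h7 : (X : ℝ) ≤ 4 * ((X / 2 : ℕ) : ℝ) := by exact_mod_cast (by omega : X ≤ 4 * (X / 2))
    have h8 := Real.log_le_log hX0 h7
    rw [Real.log_mul (by norm_num) (by exact_mod_cast (by omega : X / 2 ≠ 0))] at h8
    have h9 : Real.log 4 ≤ 2 := by
      have : Real.log 4 = 2 * Real.log 2 := by
        rw [← Real.log_rpow (by norm_num)]
        norm_num
      rw [this]
      have := Real.log_two_lt_d9
      linarith
    linarith
  obtain ⟨L, hL⟩ : ∃ L, L = Real.log X := ⟨_, rfl⟩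
  rw [← hL] at g3 g4 h6 ⊢
  have h7 : (L - 2) ^ 2 ≤ (Real.log ((X / 2 : ℕ) : ℝ)) ^ 2 :=
    pow_le_pow_left₀ (by linarith) h6 2
  have h8 : c * (Real.log ((X / 2 : ℕ) : ℝ)) ^ 2 - 1 ≤ wn c (X / 2) := (Nat.sub_one_lt_floor _).le
  have hc : 0 < c := by linarith
  have h9 : c * (L - 2) ^ 2 ≤ c * (Real.log ((X / 2 : ℕ) : ℝ)) ^ 2 := by gcongr
  have h10 : 8 * (c + 1) ≤ (c - c') * L := by
    rw [div_le_iff₀ (by linarith)] at g3
    linarith
  nlinarith

theorem GS_up (Q : Set ℕ) (hQ : Q.Infinite) (c c' : ℝ) (hc : 0 < c) (hcc : c < c')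
    (h : ∀ᶠ n : ℕ in atTop, ∃ m : ℕ, n < m ∧ m ≤ n + wn c n ∧ m ∈ Q) :
    ∀ᶠ X : ℕ in atTop, (GS Q X : ℝ) ≤ c' * (Real.log X) ^ 2 := by
  obtain ⟨n₀, hn₀⟩ := eventually_atTop.1 h
  obtain ⟨n₁, hn₁⟩ : ∃ n₁, n₁ = max n₀ 1 := ⟨_, rfl⟩
  have h1 := GS_le Q hQ c hc n₁ (by rw [hn₁]; exact le_max_right _ _) (fun n hn => by
    obtain ⟨m, h1, h2, h3⟩ := hn₀ n (by rw [hn₁] at hn; exact (le_max_left _ _).trans hn)
    exact ⟨m, h3, h1, h2⟩)
  have e1 : ∀ᶠ X : ℕ in atTop, ((n₁ + wn c n₁ : ℕ) : ℝ) / c ≤ Real.log X := tlog.eventually_ge_atTop _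
  filter_upwards [e1, tlog.eventually_ge_atTop 1] with X g1 g2
  have h2 : (GS Q X : ℝ) ≤ max (((n₁ + wn c n₁ : ℕ) : ℝ)) (wn c X : ℝ) := by exact_mod_cast h1 X
  refine h2.trans (max_le ?_ ?_)
  · rw [div_le_iff₀ hc] at g1
    nlinarith
  · have : (wn c X : ℝ) ≤ c * (Real.log X) ^ 2 := Nat.floor_le (by positivity)
    nlinarith [sq_nonneg (Real.log X)]

/-- **B.** -/
theorem partB.{u} (θ : ℝ) (hθ : 0 < θ) : ∃ δ : ℝ, 0 < δ ∧ ∀ (T : ℕ → ℕ), Monotone T →
    (∀ ε : ℝ, 0 < ε → ∀ᶠ n : ℕ in atTop, (T n : ℝ) ≤ (n : ℝ) ^ ε) →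
    ∀ (Ω : Type u) [MeasurableSpace Ω] (μ : Measure Ω) [IsProbabilityMeasure μ] (E : ℕ → Set Ω),
      Sieved μ E T → ∀ᵐ ω ∂μ, ∀ᶠ X : ℕ in atTop, (Real.log X) ^ θ ≤ T (X / 2) →
        (1 + δ) * (Real.log X) ^ 2 ≤ GS {n | ω ∈ E n} X := by
  obtain ⟨δ, hδ, hδ1, H⟩ := poor θ hθ
  refine ⟨δ / 8, by positivity, fun T hT hTs Ω _ μ _ E hE => ?_⟩
  have h1 := H T hT hTs (1 + δ / 4) (δ / 16) (by linarith) (by positivity) (by linarith)
  have h2 := low (μ := μ) hE.meas hE.indep (fun n => fT T n / Real.log n) (law' hE hTs) (1 + δ / 4)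
    ((1 - δ / 2) * (1 + δ / 4)) (δ / 16) (by linarith) (by positivity)
    (rho_small T hTs (δ / 16) (by positivity)) (by linarith) (by nlinarith [sq_nonneg δ])
    (fun x => (Real.log x) ^ θ ≤ T x) (by
      filter_upwards [h1, tlog.eventually_ge_atTop 1, eventually_ge_atTop 2] with x g1 g2 g3 g4
      obtain ⟨S, hS1, hS2⟩ := g1 g4
      refine ⟨S, fun n hn => ?_, hS2⟩
      obtain ⟨k1, k2, k3⟩ := hS1 n hn
      refine ⟨k1, k2, ?_⟩
      have hx0 : (0 : ℝ) < x := by exact_mod_cast (by omega : 0 < x)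
      have hL : 0 < Real.log x := by linarith
      calc ∑ m ∈ Ioc n (n + wn (1 + δ / 4) x), fT T m / Real.log m ≤
          ∑ m ∈ Ioc n (n + wn (1 + δ / 4) x), fT T m / Real.log x := by
            apply Finset.sum_le_sum
            intro m hm
            rw [Finset.mem_Ioc] at hm
            apply div_le_div_of_nonneg_left (fT_nonneg T m) hL
            exact Real.log_le_log hx0 (by exact_mod_cast (by omega : x ≤ m))
        _ = (∑ m ∈ Ioc n (n + wn (1 + δ / 4) x), fT T m) / Real.log x := by rw [Finset.sum_div]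
        _ ≤ ((1 - δ / 2) * ((1 + δ / 4) * (Real.log x) ^ 2)) / Real.log x := by
            apply div_le_div_of_nonneg_right k3 hL.le
        _ = (1 - δ / 2) * (1 + δ / 4) * Real.log x := by field_simp)
  filter_upwards [h2, inf hE hT hTs] with ω h3 h4
  have h5 := GS_low {n | ω ∈ E n} h4 (1 + δ / 4) (1 + δ / 8) (by linarith) (by linarith)
    (fun x => (Real.log x) ^ θ ≤ T x) h3
  filter_upwards [h5, eventually_ge_atTop 2] with X h6 h7 h8
  apply h6
  refine le_trans ?_ h8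
  have h9 : (1 : ℝ) ≤ ((X / 2 : ℕ) : ℝ) := by exact_mod_cast (by omega : 1 ≤ X / 2)
  apply Real.rpow_le_rpow (Real.log_nonneg h9) _ hθ.le
  apply Real.log_le_log (by linarith)
  exact_mod_cast Nat.div_le_self X 2

/-- small sieves: all windows are regular -/
theorem regular (ε : ℝ) (hε : 0 < ε) : ∃ θ : ℝ, 0 < θ ∧ ∀ (T : ℕ → ℕ), Monotone T →
    (∀ᶠ n : ℕ in atTop, (T n : ℝ) ≤ (Real.log n) ^ θ) → ∀ c : ℝ, 0 < c → ∀ᶠ x : ℕ in atTop,
      ∀ n : ℕ, x ≤ n → n ≤ 2 * x →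
        |∑ m ∈ Ioc n (n + wn c x), fT T m - c * (Real.log x) ^ 2| ≤ ε * (c * (Real.log x) ^ 2) := by
  obtain ⟨R, hR, hRδ⟩ := exists_R (ε / 2) (by positivity)
  obtain ⟨D, hD⟩ : ∃ D : ℕ, D = 8 * R + 18 := ⟨_, rfl⟩
  have hD0 : (0 : ℝ) < D := by rw [hD]; positivity
  refine ⟨1 / D, by positivity, fun T hT hTs c hc => ?_⟩
  have h3x : Tendsto (fun x : ℕ => 3 * x) atTop atTop := tendsto_id.const_mul_atTop' (by norm_num)
  have e1 := h3x.eventually hTs
  have e2 : ∀ᶠ x : ℕ in atTop, c * (Real.log x) ^ 2 + 1 ≤ (x : ℝ) ^ (1 : ℝ) :=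
    log_sq_small c 1 hc one_pos
  have e3 : ∀ᶠ x : ℕ in atTop, (2 / (ε * c)) * (3 ^ D * 3 + 1) ≤ Real.log x := tlog.eventually_ge_atTop _
  filter_upwards [e1, e2, e3, tlog.eventually_ge_atTop 1, eventually_ge_atTop 2] with x g1 g2 g3 g4 g5
  intro n hn1 hn2
  have hx0 : (0 : ℝ) < x := by exact_mod_cast (by omega : 0 < x)
  rw [Real.rpow_one] at g2
  obtain ⟨L, hL⟩ : ∃ L, L = Real.log x := ⟨_, rfl⟩
  obtain ⟨K, hK⟩ : ∃ K, K = wn c x := ⟨_, rfl⟩
  have hKL : (K : ℝ) ≤ c * L ^ 2 := by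
    rw [hK, hL]
    exact Nat.floor_le (by positivity)
  have hKL2 : c * L ^ 2 - 1 ≤ K := by
    rw [hK, hL]
    exact (Nat.sub_one_lt_floor _).le
  rw [← hL] at g2 g3 g4
  rw [← hK, ← hL]
  have hKx : K ≤ x := by
    have : (K : ℝ) ≤ x := by linarith
    exact_mod_cast this
  have h1 := sum_window R hR T hT n K (T (3 * x)) (hT (by omega))
  rw [← hD] at h1
  have h2 : ((T (3 * x) : ℝ) + 2) ^ D ≤ 3 ^ D * 3 * L := by
    have hl3 : Real.log ((3 * x : ℕ) : ℝ) ≤ 3 * L := by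
      push_cast
      rw [Real.log_mul (by norm_num) hx0.ne', ← hL]
      have : Real.log 3 ≤ 2 := by
        have h4 : Real.log 3 ≤ Real.log 4 := Real.log_le_log (by norm_num) (by norm_num)
        have h5 : Real.log 4 = 2 * Real.log 2 := by
          rw [← Real.log_rpow (by norm_num)]
          norm_num
        have := Real.log_two_lt_d9
        linarith
      linarith
    have hl1 : 1 ≤ Real.log ((3 * x : ℕ) : ℝ) := by
      refine g4.trans ?_
      rw [hL]
      apply Real.log_le_log hx0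
      push_cast
      linarith
    have h4 : (1 : ℝ) ≤ (Real.log ((3 * x : ℕ) : ℝ)) ^ (1 / (D : ℝ)) :=
      Real.one_le_rpow hl1 (by positivity)
    calc ((T (3 * x) : ℝ) + 2) ^ D ≤ (3 * (Real.log ((3 * x : ℕ) : ℝ)) ^ (1 / (D : ℝ))) ^ D := by
          apply pow_le_pow_left₀ (by positivity)
          linarith
      _ = 3 ^ D * Real.log ((3 * x : ℕ) : ℝ) := by
          rw [mul_pow, ← Real.rpow_natCast ((Real.log ((3 * x : ℕ) : ℝ)) ^ (1 / (D : ℝ))) D,
            ← Real.rpow_mul (by linarith), one_div, inv_mul_cancel₀ hD0.ne', Real.rpow_one]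
      _ ≤ 3 ^ D * (3 * L) := by gcongr
      _ = 3 ^ D * 3 * L := by ring
  have h3 : 3 ^ D * 3 * L + 1 ≤ ε / 2 * (c * L ^ 2) := by
    have h4 : (3 ^ D * 3 + 1) ≤ ε * c / 2 * L := by
      have h5 : (2 / (ε * c)) * (3 ^ D * 3 + 1) * (ε * c / 2) ≤ L * (ε * c / 2) := by gcongr
      have h6 : (2 / (ε * c)) * (3 ^ D * 3 + 1 : ℝ) * (ε * c / 2) = 3 ^ D * 3 + 1 := by field_simp
      linarith
    have h5 : (3 ^ D * 3 + 1) * L ≤ ε * c / 2 * L * L := by gcongr
    nlinarith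
  have h4 : (2 : ℝ) ^ 25 * (1 / 2) ^ (2 * R) * K ≤ ε / 2 * (c * L ^ 2) := by
    gcongr
  rw [abs_le] at h1 ⊢
  constructor <;> linarith [h1.1, h1.2]

theorem sub_pow (T : ℕ → ℕ) (θ : ℝ) (hTs : ∀ᶠ n : ℕ in atTop, (T n : ℝ) ≤ (Real.log n) ^ θ) :
    ∀ ε : ℝ, 0 < ε → ∀ᶠ n : ℕ in atTop, (T n : ℝ) ≤ (n : ℝ) ^ ε := by
  intro ε hε
  have h1 := (isLittleO_log_rpow_rpow_atTop θ hε).bound one_pos
  filter_upwards [hTs, tendsto_natCast_atTop_atTop.eventually h1, tlog.eventually_ge_atTop 0,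
    eventually_ge_atTop 1] with n g1 g2 g3 g4
  have hn0 : (0 : ℝ) < n := by exact_mod_cast g4
  rw [one_mul, Real.norm_of_nonneg (by positivity), Real.norm_of_nonneg (by positivity)] at g2
  exact g1.trans g2

/-- **C.** -/
theorem partC.{u} (ε : ℝ) (hε : 0 < ε) : ∃ θ : ℝ, 0 < θ ∧ ∀ (T : ℕ → ℕ), Monotone T →
    (∀ᶠ n : ℕ in atTop, (T n : ℝ) ≤ (Real.log n) ^ θ) →
    ∀ (Ω : Type u) [MeasurableSpace Ω] (μ : Measure Ω) [IsProbabilityMeasure μ] (E : ℕ → Set Ω),
      Sieved μ E T → ∀ᵐ ω ∂μ, ∀ᶠ X : ℕ in atTop,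
        (1 - ε) * (Real.log X) ^ 2 ≤ GS {n | ω ∈ E n} X ∧
        (GS {n | ω ∈ E n} X : ℝ) ≤ (1 + ε) * (Real.log X) ^ 2 := by
  obtain ⟨e, he, he1, he2⟩ : ∃ e : ℝ, 0 < e ∧ e ≤ 1 / 4 ∧ e ≤ ε :=
    ⟨min (1 / 4) ε, lt_min (by norm_num) hε, min_le_left _ _, min_le_right _ _⟩
  obtain ⟨θ, hθ, H⟩ := regular (e / 8) (by positivity)
  refine ⟨θ, hθ, fun T hT hTθ Ω _ μ _ E hE => ?_⟩
  have hTs := sub_pow T θ hTθ
  -- upper bound
  have h1 := up (μ := μ) hE.meas hE.indep (fun n => fT T n / Real.log n) (law' hE hTs)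
    (wn (1 + e / 2)) (1 + e / 8) (by linarith) (by
      filter_upwards [H T hT hTθ (1 + e / 2) (by linarith), tlog.eventually_ge_atTop (100 / e),
        log_sq_small (1 + e / 2) 1 (by linarith) one_pos, tlog.eventually_ge_atTop 1,
        eventually_ge_atTop 2] with n g1 g2 g3 g4 g5
      have hn0 : (0 : ℝ) < n := by exact_mod_cast (by omega : 0 < n)
      have h2 := (abs_le.1 (g1 n le_rfl (by omega))).1
      rw [Real.rpow_one] at g3
      obtain ⟨L, hL⟩ : ∃ L, L = Real.log n := ⟨_, rfl⟩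
      obtain ⟨K, hK⟩ : ∃ K, K = wn (1 + e / 2) n := ⟨_, rfl⟩
      have hKL : (K : ℝ) ≤ (1 + e / 2) * L ^ 2 := by
        rw [hK, hL]
        exact Nat.floor_le (by positivity)
      rw [← hL] at g2 g3 g4 h2 ⊢
      rw [← hK] at h2 ⊢
      have hKn : (K : ℝ) ≤ n := by linarith
      have hlog2 : Real.log (2 * n) ≤ L + 1 := by
        rw [Real.log_mul (by norm_num) hn0.ne', hL]
        have := Real.log_two_lt_d9
        linarith
      have h5 : (∑ m ∈ Ioc n (n + K), fT T m) / (L + 1) ≤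
          ∑ m ∈ Ioc n (n + K), fT T m / Real.log m := by
        rw [Finset.sum_div]
        apply Finset.sum_le_sum
        intro m hm
        rw [Finset.mem_Ioc] at hm
        have hm1 : (1 : ℝ) < m := by exact_mod_cast (by omega : 1 < m)
        apply div_le_div_of_nonneg_left (fT_nonneg T m) (Real.log_pos hm1)
        refine le_trans ?_ hlog2
        apply Real.log_le_log (by linarith)
        have : (m : ℝ) ≤ ((n + K : ℕ) : ℝ) := by exact_mod_cast hm.2
        push_cast at this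
        linarith
      refine le_trans ?_ h5
      rw [le_div_iff₀ (by linarith)]
      have h6 : (1 - e / 8) * (1 + e / 2) * L ^ 2 ≤ ∑ m ∈ Ioc n (n + K), fT T m := by linarith
      refine le_trans ?_ h6
      have h7 : 100 ≤ e * L := by
        rw [div_le_iff₀ he] at g2
        linarith
      have h8 : 1 + e / 4 ≤ (1 - e / 8) * (1 + e / 2) := by nlinarith
      have h9 : (1 + e / 4) * L ^ 2 ≤ (1 - e / 8) * (1 + e / 2) * L ^ 2 := by gcongr
      nlinarith)
  -- lower bound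
  have h2 := low (μ := μ) hE.meas hE.indep (fun n => fT T n / Real.log n) (law' hE hTs) (1 - e / 2)
    ((1 + e / 8) * (1 - e / 2)) (e / 32) (by linarith) (by positivity)
    (rho_small T hTs (e / 32) (by positivity)) (by linarith) (by nlinarith [sq_nonneg e])
    (fun _ => True) (by
      have e5 : ∀ᶠ x : ℕ in atTop, (1 : ℝ) ≤ (x : ℝ) ^ (e / 32) :=
        ((tendsto_rpow_atTop (by positivity)).comp tendsto_natCast_atTop_atTop).eventually_ge_atTop _
      filter_upwards [H T hT hTθ (1 - e / 2) (by linarith), tlog.eventually_ge_atTop 1,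
        eventually_ge_atTop 2, e5] with x g1 g2 g3 g5 _
      have hx0 : (0 : ℝ) < x := by exact_mod_cast (by omega : 0 < x)
      have hL : 0 < Real.log x := by linarith
      refine ⟨Ioc x (x + x), fun n hn => ?_, ?_⟩
      · rw [Finset.mem_Ioc] at hn
        have k3 := (abs_le.1 (g1 n (by omega) (by omega))).2
        refine ⟨hn.1, by omega, ?_⟩
        calc ∑ m ∈ Ioc n (n + wn (1 - e / 2) x), fT T m / Real.log m ≤
            ∑ m ∈ Ioc n (n + wn (1 - e / 2) x), fT T m / Real.log x := by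
              apply Finset.sum_le_sum
              intro m hm
              rw [Finset.mem_Ioc] at hm
              apply div_le_div_of_nonneg_left (fT_nonneg T m) hL
              exact Real.log_le_log hx0 (by exact_mod_cast (by omega : x ≤ m))
          _ = (∑ m ∈ Ioc n (n + wn (1 - e / 2) x), fT T m) / Real.log x := by rw [Finset.sum_div]
          _ ≤ ((1 + e / 8) * ((1 - e / 2) * (Real.log x) ^ 2)) / Real.log x := by
              apply div_le_div_of_nonneg_right _ hL.le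
              linarith
          _ = (1 + e / 8) * (1 - e / 2) * Real.log x := by field_simp
      · rw [Nat.card_Ioc]
        have : x + x - x = x := by omega
        rw [this]
        calc (x : ℝ) ^ (1 - e / 32) ≤ (x : ℝ) ^ (1 : ℝ) := by
              apply Real.rpow_le_rpow_of_exponent_le
              · exact_mod_cast (by omega : 1 ≤ x)
              · linarith
          _ = x := Real.rpow_one _)
  filter_upwards [h1, h2, inf hE hT hTs] with ω k1 k2 k3
  have k4 := GS_low {n | ω ∈ E n} k3 (1 - e / 2) (1 - e) (by linarith) (by linarith) (fun _ => True) k2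
  have k5 := GS_up {n | ω ∈ E n} k3 (1 + e / 2) (1 + e) (by linarith) (by linarith) k1
  filter_upwards [k4, k5] with X l1 l2
  have l3 := l1 trivial
  have l4 : 0 ≤ (Real.log X) ^ 2 := sq_nonneg _
  constructor <;> nlinarith

/-- **A.** -/
theorem partA (T : ℕ → ℕ) (hT : Monotone T)
    (hTs : ∀ ε : ℝ, 0 < ε → ∀ᶠ n : ℕ in atTop, (T n : ℝ) ≤ (n : ℝ) ^ ε) (E : ℕ → Set Ω)
    (hE : Sieved μ E T) :
    (∀ᵐ ω ∂μ, Tendsto (fun X : ℕ => (GS {n | ω ∈ E n} X : ℝ) / (Real.log X) ^ 2) atTop (𝓝 1)) ↔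
      ∀ θ : ℝ, 0 < θ → ∀ᶠ n : ℕ in atTop, (T n : ℝ) ≤ (Real.log n) ^ θ := by
  constructor
  · intro h θ hθ
    by_contra hcon
    rw [not_eventually] at hcon
    obtain ⟨δ, hδ, H⟩ := partB (θ / 2) (by positivity)
    have h1 := H T hT hTs Ω μ E hE
    obtain ⟨ω, h2, h3⟩ := (h.and h1).exists
    have h4 : ∀ᶠ X : ℕ in atTop, (GS {n | ω ∈ E n} X : ℝ) / (Real.log X) ^ 2 < 1 + δ :=
      h2.eventually (gt_mem_nhds (by linarith))
    have hmul : Tendsto (fun n : ℕ => 2 * n) atTop atTop := tendsto_id.const_mul_atTop' (by norm_num)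
    have h5 : ∀ᶠ n : ℕ in atTop, (Real.log ((2 * n : ℕ) : ℝ)) ^ (θ / 2) ≤ (Real.log n) ^ θ := by
      filter_upwards [tlog.eventually_ge_atTop 2, eventually_ge_atTop 1] with n g1 g2
      have hn0 : (0 : ℝ) < n := by exact_mod_cast g2
      have h6 : (Real.log n) ^ θ = ((Real.log n) ^ (2 : ℝ)) ^ (θ / 2) := by
        rw [← Real.rpow_mul (by linarith)]
        congr 1
        ring
      rw [h6]
      apply Real.rpow_le_rpow (Real.log_natCast_nonneg _) _ (by positivity)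
      push_cast
      rw [Real.log_mul (by norm_num) hn0.ne', Real.rpow_two]
      have := Real.log_two_lt_d9
      nlinarith
    obtain ⟨n, g1, g2, g3, g4, g5⟩ := (hcon.and_eventually
      (h5.and ((hmul.eventually h3).and ((hmul.eventually h4).and (eventually_ge_atTop 2))))).exists
    push Not at g1
    have h6 : 2 * n / 2 = n := by omega
    rw [h6] at g3
    have h7 := g3 (g2.trans g1.le)
    have h8 : 0 < Real.log ((2 * n : ℕ) : ℝ) := Real.log_pos (by exact_mod_cast (by omega : 1 < 2 * n))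
    rw [div_lt_iff₀ (by positivity)] at g4
    linarith
  · intro h
    have h1 : ∀ᵐ ω ∂μ, ∀ k : ℕ, ∀ᶠ X : ℕ in atTop,
        (1 - 1 / ((k : ℝ) + 1)) * (Real.log X) ^ 2 ≤ GS {n | ω ∈ E n} X ∧
        (GS {n | ω ∈ E n} X : ℝ) ≤ (1 + 1 / ((k : ℝ) + 1)) * (Real.log X) ^ 2 := by
      rw [ae_all_iff]
      intro k
      obtain ⟨θ, hθ, H⟩ := partC (1 / ((k : ℝ) + 1)) (by positivity)
      exact H T hT (h θ hθ) Ω μ E hE
    filter_upwards [h1] with ω hω
    rw [Metric.tendsto_atTop]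
    intro ε hε
    obtain ⟨k, hk⟩ := exists_nat_one_div_lt hε
    obtain ⟨N, hN⟩ := eventually_atTop.1 ((hω k).and (tlog.eventually_ge_atTop 1))
    refine ⟨N, fun X hX => ?_⟩
    obtain ⟨⟨g1, g2⟩, g3⟩ := hN X hX
    have hL : 0 < (Real.log X) ^ 2 := by positivity
    rw [Real.dist_eq, abs_lt]
    rw [← le_div_iff₀ hL] at g1
    rw [← div_le_iff₀ hL] at g2
    constructor <;> linarith

end Pool.Agent.U839.Sv
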