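import Mathlib
import Pool.Agent.U839.Sv.Crit
import Pool.Agent.U839.Sv.Prob
import Pool.Agent.U839.Sv.Count

set_option autoImplicit false

/-! # The integral test for the gaps of random sets, part 2 -/

open MeasureTheory ProbabilityTheory Filter Finset Topology

namespace Pool.Agent.U839.Sv

open Pool.Agent.U839.Thin (tlog)

variable {Ω : Type*} [MeasurableSpace Ω] {μ : Measure Ω} [IsProbabilityMeasure μ]

/-- the terms of the series -/
noncomputable def ff (φ : ℕ → ℝ) (n : ℕ) : ℝ := Real.exp (-φ n) / (n * Real.log n)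

theorem ff_nonneg (φ : ℕ → ℝ) (n : ℕ) : 0 ≤ ff φ n :=
  div_nonneg (Real.exp_pos _).le (mul_nonneg (Nat.cast_nonneg n) (Real.log_natCast_nonneg n))

theorem cond (φ : ℕ → ℝ) (hφ : Monotone φ) :
    (Summable fun k : ℕ => Real.exp (-φ (2 ^ k)) / (k * Real.log 2)) ↔ Summable (ff φ) := by
  rw [← summable_condensed_iff_of_eventually_nonneg (f := ff φ)
    (Eventually.of_forall (fun n => ff_nonneg φ n))]
  · apply summable_congr
    intro k
    unfold ff
    push_cast
    rw [Real.log_pow]
    field_simp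
  · filter_upwards [eventually_ge_atTop 2] with n hn
    unfold ff
    have hn1 : (1 : ℝ) < n := by exact_mod_cast hn
    have hl : 0 < Real.log n := Real.log_pos hn1
    apply div_le_div₀ (Real.exp_pos _).le
    · apply Real.exp_le_exp.2
      have := hφ (Nat.le_succ n)
      linarith
    · positivity
    · apply mul_le_mul
      · push_cast; linarith
      · apply Real.log_le_log (by linarith)
        push_cast; linarith
      · exact hl.le
      · positivity

theorem cut_mono (φ : ℕ → ℝ) (hφ : Monotone φ) : Monotone (fun n => min (φ n) (Real.log n)) := by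
  intro a b hab
  apply min_le_min (hφ hab)
  rcases Nat.eq_zero_or_pos a with h | h
  · rw [h]
    simp only [Nat.cast_zero, Real.log_zero]
    exact Real.log_natCast_nonneg b
  · exact Real.log_le_log (by exact_mod_cast h) (by exact_mod_cast hab)

theorem wf_mono (φ ψ : ℕ → ℝ) (n : ℕ) (h : φ n ≤ ψ n) : wf φ n ≤ wf ψ n := by
  unfold wf
  apply Nat.floor_le_floor
  have := mul_le_mul_of_nonneg_right h (Real.log_natCast_nonneg n)
  linarith

omit [MeasurableSpace Ω] in
theorem AA_mono (E : ℕ → Set Ω) (w w' : ℕ → ℕ) (n : ℕ) (h : w n ≤ w' n) :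
    AA E w' n ⊆ AA E w n := by
  intro ω hω
  unfold AA at *
  simp only [Set.mem_inter_iff, Set.mem_iInter, Finset.mem_Ioc] at *
  exact ⟨hω.1, fun m hm => hω.2 m ⟨hm.1, by omega⟩⟩

theorem sq_summable : Summable (fun n : ℕ => Real.exp (-Real.log n) / (n * Real.log n)) := by
  have h1 : Summable (fun n : ℕ => 1 / (n : ℝ) ^ 2) := by
    rw [Real.summable_one_div_nat_pow]
    norm_num
  refine Summable.of_norm_bounded_eventually_nat h1 ?_
  filter_upwards [tlog.eventually_ge_atTop 1, eventually_ge_atTop 1] with n g1 g2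
  have hn0 : (0 : ℝ) < n := by exact_mod_cast g2
  rw [Real.norm_of_nonneg (by positivity), Real.exp_neg, Real.exp_log hn0]
  rw [div_le_div_iff₀ (by positivity) (by positivity)]
  field_simp
  exact g1

/-- convergence: finitely many long gaps -/
theorem test_conv {E : ℕ → Set Ω} (hm : ∀ n, MeasurableSet (E n)) (hE : iIndepSet E μ)
    (C : ℝ) (hC : 1 ≤ C) (hR : Reg (fun n => μ.real (E n)) C) (φ : ℕ → ℝ) (hφ : Monotone φ)
    (h : Summable (ff φ)) : ∀ᵐ ω ∂μ, ∀ᶠ n in atTop, ω ∉ AA E (wf φ) n := by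
  obtain ⟨ψ, hψ⟩ : ∃ ψ : ℕ → ℝ, ψ = fun n => min (φ n) (Real.log n) := ⟨_, rfl⟩
  obtain ⟨K, hK, H⟩ := bounds _ C hC hR (min (φ 0) 0)
  have hs : Summable (fun n => μ.real (AA E (wf ψ) n)) := by
    have h1 : Summable (fun n : ℕ => K * (ff φ n + Real.exp (-Real.log n) / (n * Real.log n))) :=
      (h.add sq_summable).mul_left K
    refine Summable.of_norm_bounded_eventually_nat h1 ?_
    filter_upwards [H] with n hn
    have hb : min (φ 0) 0 ≤ ψ n := by
      rw [hψ]
      exact min_le_min (hφ (Nat.zero_le n)) (Real.log_natCast_nonneg n)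
    obtain ⟨h2, -⟩ := hn ψ hb (by rw [hψ]; exact min_le_right _ _)
    rw [Real.norm_of_nonneg measureReal_nonneg, AA_prob hm hE]
    refine h2.trans ?_
    apply mul_le_mul_of_nonneg_left _ hK.le
    unfold ff
    have h3 : Real.exp (-ψ n) ≤ Real.exp (-φ n) + Real.exp (-Real.log n) := by
      rw [hψ]
      simp only
      rcases le_total (φ n) (Real.log n) with h4 | h4
      · rw [min_eq_left h4]
        have := Real.exp_pos (-Real.log n)
        linarith
      · rw [min_eq_right h4]
        have := Real.exp_pos (-φ n)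
        linarith
    rw [← add_div]
    exact div_le_div_of_nonneg_right h3 (mul_nonneg (Nat.cast_nonneg n) (Real.log_natCast_nonneg n))
  filter_upwards [fo (wf ψ) hs] with ω hω
  filter_upwards [hω] with n hn hc
  apply hn
  exact AA_mono E (wf ψ) (wf φ) n (wf_mono ψ φ n (by rw [hψ]; exact min_le_left _ _)) hc

/-- divergence: infinitely many long gaps -/
theorem test_div {E : ℕ → Set Ω} (hm : ∀ n, MeasurableSet (E n)) (hE : iIndepSet E μ)
    (C : ℝ) (hC : 1 ≤ C) (hR : Reg (fun n => μ.real (E n)) C) (φ : ℕ → ℝ) (hφ : Monotone φ)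
    (h : ¬ Summable (ff φ)) : ∀ᵐ ω ∂μ, ∃ᶠ n in atTop, ω ∈ AA E (wf φ) n := by
  classical
  obtain ⟨ψ, hψ⟩ : ∃ ψ : ℕ → ℝ, ψ = fun n => min (φ n) (Real.log n) := ⟨_, rfl⟩
  have hψm : Monotone ψ := by rw [hψ]; exact cut_mono φ hφ
  have hψφ : ∀ n, ψ n ≤ φ n := fun n => by rw [hψ]; exact min_le_left _ _
  have hψl : ∀ n : ℕ, ψ n ≤ Real.log n := fun n => by rw [hψ]; exact min_le_right _ _
  obtain ⟨K, hK, H⟩ := bounds _ C hC hR (min (φ 0) 0)
  have hb : ∀ n, min (φ 0) 0 ≤ ψ n := fun n => by
    rw [hψ]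
    exact min_le_min (hφ (Nat.zero_le n)) (Real.log_natCast_nonneg n)
  obtain ⟨ρ, hρ⟩ : ∃ ρ : ℕ → ℝ, ρ = fun n => μ.real (E n) := ⟨_, rfl⟩
  have hρ0 : ∀ n, 0 ≤ ρ n := fun n => by rw [hρ]; exact measureReal_nonneg
  have hns : ¬ Summable (fun n => μ.real (AA E (wf ψ) n)) := by
    intro hs
    apply h
    rw [← cond φ hφ]
    -- the series with the probabilities
    have h1 : Summable (fun n : ℕ => ρ n * (Real.exp (-ψ n) / n)) := by
      refine Summable.of_norm_bounded_eventually_nat (hs.mul_left K) ?_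
      filter_upwards [H] with n hn
      obtain ⟨-, h2⟩ := hn ψ (hb n) (hψl n)
      rw [Real.norm_of_nonneg (mul_nonneg (hρ0 n) (by positivity)), AA_prob hm hE, hρ]
      exact h2
    -- blocks
    have h2 : Summable (fun k : ℕ => ∑ m ∈ Ioc (2 ^ k) (2 ^ (k + 1)), ρ m * (Real.exp (-ψ m) / m)) := by
      apply summable_of_sum_range_le (c := ∑' n, ρ n * (Real.exp (-ψ n) / n))
      · intro k
        apply Finset.sum_nonneg
        intro m _
        exact mul_nonneg (hρ0 m) (by positivity)
      · intro k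
        have h3 : ∑ i ∈ range k, ∑ m ∈ Ioc (2 ^ i) (2 ^ (i + 1)), ρ m * (Real.exp (-ψ m) / m) =
            ∑ m ∈ Ioc (2 ^ 0) (2 ^ k), ρ m * (Real.exp (-ψ m) / m) := by
          induction k with
          | zero => simp
          | succ k ih =>
            rw [Finset.sum_range_succ, ih]
            exact Finset.sum_Ioc_consecutive (fun m : ℕ => ρ m * (Real.exp (-ψ m) / m))
              (Nat.pow_le_pow_right (by norm_num) (Nat.zero_le k))
              (Nat.pow_le_pow_right (by norm_num) (Nat.le_succ k))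
        rw [h3]
        exact h1.sum_le_tsum _ (fun m _ => mul_nonneg (hρ0 m) (by positivity))
    have h3 : Summable (fun k : ℕ => Real.exp (-φ (2 ^ (k + 1))) / ((k + 1 : ℕ) * Real.log 2)) := by
      refine Summable.of_norm_bounded_eventually_nat (h2.mul_left 64) ?_
      have hd := dyadic ρ C hC (by rw [hρ]; exact hR)
      filter_upwards [hd, eventually_ge_atTop 1] with k g1 g2
      have hk0 : (1 : ℝ) ≤ k := by exact_mod_cast g2
      rw [Real.norm_of_nonneg (by positivity)]
      have h4 : ∑ m ∈ Ioc (2 ^ k) (2 ^ (k + 1)), ρ m * (Real.exp (-ψ (2 ^ (k + 1))) / (2 : ℝ) ^ (k + 1)) ≤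
          ∑ m ∈ Ioc (2 ^ k) (2 ^ (k + 1)), ρ m * (Real.exp (-ψ m) / m) := by
        apply Finset.sum_le_sum
        intro m hm'
        rw [Finset.mem_Ioc] at hm'
        apply mul_le_mul_of_nonneg_left _ (hρ0 m)
        have hm0 : (0 : ℝ) < m := by
          have : 0 < 2 ^ k := by positivity
          exact_mod_cast (by omega : 0 < m)
        apply div_le_div₀ (Real.exp_pos _).le _ hm0
        · exact_mod_cast hm'.2
        · apply Real.exp_le_exp.2
          have := hψm hm'.2
          linarith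
      rw [← Finset.sum_mul] at h4
      have h5 : (2 : ℝ) ^ k / (16 * k) * (Real.exp (-ψ (2 ^ (k + 1))) / (2 : ℝ) ^ (k + 1)) ≤
          (∑ m ∈ Ioc (2 ^ k) (2 ^ (k + 1)), ρ m) * (Real.exp (-ψ (2 ^ (k + 1))) / (2 : ℝ) ^ (k + 1)) :=
        mul_le_mul_of_nonneg_right g1 (by positivity)
      have h6 : (2 : ℝ) ^ k / (16 * k) * (Real.exp (-ψ (2 ^ (k + 1))) / (2 : ℝ) ^ (k + 1)) =
          Real.exp (-ψ (2 ^ (k + 1))) / (32 * k) := by
        field_simp
        ring
      have h7 : Real.exp (-φ (2 ^ (k + 1))) / ((k + 1 : ℕ) * Real.log 2) ≤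
          64 * (Real.exp (-ψ (2 ^ (k + 1))) / (32 * k)) := by
        have e1 : Real.exp (-φ (2 ^ (k + 1))) ≤ Real.exp (-ψ (2 ^ (k + 1))) := by
          apply Real.exp_le_exp.2
          have := hψφ (2 ^ (k + 1))
          linarith
        have e2 : 64 * (Real.exp (-ψ (2 ^ (k + 1))) / (32 * k)) =
            Real.exp (-ψ (2 ^ (k + 1))) / (k * (1 / 2)) := by
          field_simp
          norm_num
        rw [e2]
        apply div_le_div₀ (Real.exp_pos _).le e1 (by positivity)
        apply mul_le_mul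
        · push_cast; linarith
        · have := Real.log_two_gt_d9
          linarith
        · norm_num
        · positivity
      linarith
    exact (summable_nat_add_iff 1).1 h3
  have hT : ∀ᵐ ω ∂μ, ∀ᶠ n : ℕ in atTop, ω ∉ (if Real.log n < φ n then AA E (wf ψ) n else ∅) := by
    apply ae_eventually_notMem
    have h1 : Summable (fun n : ℕ => μ.real (if Real.log n < φ n then AA E (wf ψ) n else ∅)) := by
      refine Summable.of_norm_bounded_eventually_nat (sq_summable.mul_left K) ?_
      filter_upwards [H] with n hn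
      rw [Real.norm_of_nonneg measureReal_nonneg]
      split_ifs with h2
      · obtain ⟨h3, -⟩ := hn ψ (hb n) (hψl n)
        rw [AA_prob hm hE]
        refine h3.trans ?_
        have h4 : ψ n = Real.log n := by rw [hψ]; exact min_eq_right h2.le
        rw [h4]
      · simp only [measureReal_empty]
        exact mul_nonneg hK.le (div_nonneg (Real.exp_pos _).le
          (mul_nonneg (Nat.cast_nonneg n) (Real.log_natCast_nonneg n)))
    have h2 : ∀ n : ℕ, μ (if Real.log n < φ n then AA E (wf ψ) n else ∅) =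
        ENNReal.ofReal (μ.real (if Real.log n < φ n then AA E (wf ψ) n else ∅)) := fun n =>
      (ENNReal.ofReal_toReal (measure_ne_top μ _)).symm
    simp only [h2]
    exact h1.tsum_ofReal_ne_top
  filter_upwards [io hm hE (wf ψ) hns, hT] with ω h1 h2
  refine (h1.and_eventually h2).mono ?_
  rintro n ⟨h3, h4⟩
  by_cases h5 : Real.log n < φ n
  · rw [if_pos h5] at h4
    exact absurd h3 h4
  · push Not at h5
    have h6 : ψ n = φ n := by rw [hψ]; exact min_eq_left h5
    have h7 : wf ψ n = wf φ n := by unfold wf; rw [h6]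
    unfold AA at h3 ⊢
    rw [h7] at h3
    exact h3

/-- the triple logarithm -/
noncomputable def l3 (c : ℝ) (n : ℕ) : ℝ := c * Real.log (Real.log (Real.log ((max n 16 : ℕ) : ℝ)))

theorem log16 : 1 < Real.log (Real.log 16) + 1 / 100 ∧ Real.exp 1 < Real.log 16 := by
  have h1 : Real.log 16 = 4 * Real.log 2 := by
    rw [show (16 : ℝ) = 2 ^ (4 : ℕ) by norm_num, Real.log_pow]
    norm_num
  have h2 := Real.log_two_gt_d9
  have h3 := Real.exp_one_lt_d9
  have h4 : Real.exp 1 < Real.log 16 := by rw [h1]; linarith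
  refine ⟨?_, h4⟩
  have h5 : Real.log (Real.exp 1) < Real.log (Real.log 16) :=
    Real.log_lt_log (Real.exp_pos _) h4
  rw [Real.log_exp] at h5
  linarith

theorem l3_mono (c : ℝ) (hc : 0 ≤ c) : Monotone (l3 c) := by
  intro a b hab
  unfold l3
  apply mul_le_mul_of_nonneg_left _ hc
  have h0 : (16 : ℝ) ≤ ((max a 16 : ℕ) : ℝ) := by exact_mod_cast le_max_right a 16
  have h1 : ((max a 16 : ℕ) : ℝ) ≤ ((max b 16 : ℕ) : ℝ) := by exact_mod_cast max_le_max hab le_rfl
  have h2 : Real.log 16 ≤ Real.log ((max a 16 : ℕ) : ℝ) := Real.log_le_log (by norm_num) h0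
  have h3 := log16.2
  have h4 := Real.exp_pos 1
  have h5 : 1 < Real.log (Real.log ((max a 16 : ℕ) : ℝ)) := by
    rw [← Real.log_exp 1]
    apply Real.log_lt_log h4
    linarith
  apply Real.log_le_log (by linarith)
  apply Real.log_le_log (by linarith)
  exact Real.log_le_log (by linarith) h1

theorem l3_pow (c : ℝ) (k : ℕ) (hk : 4 ≤ k) :
    Real.exp (-l3 c (2 ^ k)) / (k * Real.log 2) = (Real.log (k * Real.log 2)) ^ (-c) / (k * Real.log 2) := by
  have h1 : max (2 ^ k) 16 = 2 ^ k := by
    apply max_eq_left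
    calc 16 = 2 ^ 4 := by norm_num
      _ ≤ 2 ^ k := Nat.pow_le_pow_right (by norm_num) hk
  unfold l3
  rw [h1]
  push_cast
  rw [Real.log_pow]
  have hk4 : (4 : ℝ) ≤ k := by exact_mod_cast hk
  have h2 := Real.log_two_gt_d9
  have h3 : 1 < (k : ℝ) * Real.log 2 := by nlinarith
  have h4 : 0 < Real.log (k * Real.log 2) := Real.log_pos h3
  rw [Real.rpow_def_of_pos h4]
  congr 2
  ring

theorem l3_cond (c : ℝ) (hc : 0 ≤ c) : Summable (ff (l3 c)) ↔
    Summable (fun j : ℕ => (Real.log ((2 : ℝ) ^ j * Real.log 2)) ^ (-c) / Real.log 2) := by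
  rw [← cond (l3 c) (l3_mono c hc)]
  have h1 : (Summable fun k : ℕ => Real.exp (-l3 c (2 ^ k)) / (k * Real.log 2)) ↔
      Summable (fun k : ℕ => (Real.log (k * Real.log 2)) ^ (-c) / (k * Real.log 2)) := by
    apply summable_congr_atTop
    filter_upwards [eventually_ge_atTop 4] with k hk
    exact l3_pow c k hk
  rw [h1]
  have hl2 := Real.log_two_gt_d9
  rw [← summable_condensed_iff_of_eventually_nonneg
    (f := fun k : ℕ => (Real.log (k * Real.log 2)) ^ (-c) / (k * Real.log 2))]
  · apply summable_congr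
    intro j
    push_cast
    field_simp
  · filter_upwards [eventually_ge_atTop 4] with k hk
    have hk4 : (4 : ℝ) ≤ k := by exact_mod_cast hk
    have h3 : 1 < (k : ℝ) * Real.log 2 := by nlinarith
    have h4 : 0 < Real.log (k * Real.log 2) := Real.log_pos h3
    show (0 : ℝ) ≤ _
    positivity
  · filter_upwards [eventually_ge_atTop 4] with k hk
    have hk4 : (4 : ℝ) ≤ k := by exact_mod_cast hk
    have h3 : 1 < (k : ℝ) * Real.log 2 := by nlinarith
    have h4 : 0 < Real.log (k * Real.log 2) := Real.log_pos h3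
    have h5 : (k : ℝ) * Real.log 2 ≤ ((k + 1 : ℕ) : ℝ) * Real.log 2 := by
      push_cast
      nlinarith
    apply div_le_div₀ (Real.rpow_nonneg h4.le _) _ (by linarith) h5
    apply Real.rpow_le_rpow_of_nonpos h4 _ (by linarith)
    exact Real.log_le_log (by linarith) h5

theorem l3_diverges : ¬ Summable (ff (l3 1)) := by
  rw [l3_cond 1 zero_le_one]
  intro h
  have h1 : Summable (fun j : ℕ => 1 / (j : ℝ)) := by
    refine Summable.of_norm_bounded_eventually_nat h ?_
    filter_upwards [eventually_ge_atTop 4] with j hj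
    have hj4 : (4 : ℝ) ≤ j := by exact_mod_cast hj
    rw [Real.norm_of_nonneg (by positivity)]
    have h2 : Real.log ((2 : ℝ) ^ j * Real.log 2) ≤ j := by
      have h3 : Real.log 2 ≤ 1 := by
        have := Real.log_two_lt_d9
        linarith
      have h4 : Real.log ((2 : ℝ) ^ j * Real.log 2) ≤ Real.log ((2 : ℝ) ^ j * 1) := by
        apply Real.log_le_log (by positivity)
        gcongr
      rw [mul_one, Real.log_pow] at h4
      nlinarith
    have h5 : 0 < Real.log ((2 : ℝ) ^ j * Real.log 2) := by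
      apply Real.log_pos
      have h6 : (2 : ℝ) ^ 4 ≤ 2 ^ j := pow_le_pow_right₀ (by norm_num) hj
      have := Real.log_two_gt_d9
      nlinarith
    rw [Real.rpow_neg_one]
    have h6 : (1 : ℝ) / j ≤ (Real.log ((2 : ℝ) ^ j * Real.log 2))⁻¹ := by
      rw [← one_div]
      exact one_div_le_one_div_of_le h5 h2
    refine h6.trans ?_
    have h7 : 0 < (Real.log ((2 : ℝ) ^ j * Real.log 2))⁻¹ := inv_pos.2 h5
    rw [le_div_iff₀ (Real.log_pos (by norm_num))]
    have := Real.log_two_lt_d9
    nlinarith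
  exact Real.not_summable_one_div_natCast h1

theorem l3_converges (c : ℝ) (hc : 1 < c) : Summable (ff (l3 c)) := by
  rw [l3_cond c (by linarith)]
  have h0 : Summable (fun j : ℕ => (4 : ℝ) ^ c * (1 / (j : ℝ) ^ c)) :=
    (Real.summable_one_div_nat_rpow.2 hc).mul_left _
  refine Summable.of_norm_bounded_eventually_nat (h0.mul_left 2) ?_
  filter_upwards [eventually_ge_atTop 4] with j hj
  have hj4 : (4 : ℝ) ≤ j := by exact_mod_cast hj
  have hj0 : (0 : ℝ) < j := by linarith
  have hl2 := Real.log_two_gt_d9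
  have h5 : (j : ℝ) / 4 ≤ Real.log ((2 : ℝ) ^ j * Real.log 2) := by
    have h6 : Real.log ((2 : ℝ) ^ j * (1 / 2)) ≤ Real.log ((2 : ℝ) ^ j * Real.log 2) := by
      apply Real.log_le_log (by positivity)
      gcongr
      linarith
    rw [Real.log_mul (by positivity) (by norm_num), Real.log_pow, one_div, Real.log_inv] at h6
    nlinarith
  have h6 : 0 < Real.log ((2 : ℝ) ^ j * Real.log 2) := by linarith
  rw [Real.norm_of_nonneg (by positivity)]
  have h7 : (Real.log ((2 : ℝ) ^ j * Real.log 2)) ^ (-c) ≤ ((j : ℝ) / 4) ^ (-c) :=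
    Real.rpow_le_rpow_of_nonpos (by linarith) h5 (by linarith)
  have h8 : ((j : ℝ) / 4) ^ (-c) = (4 : ℝ) ^ c * (1 / (j : ℝ) ^ c) := by
    rw [Real.rpow_neg (by positivity), Real.div_rpow hj0.le (by norm_num), inv_div]
    ring
  rw [h8] at h7
  have h9 : 0 ≤ (4 : ℝ) ^ c * (1 / (j : ℝ) ^ c) := by positivity
  rw [div_le_iff₀ (by linarith)]
  nlinarith

end Pool.Agent.U839.Sv
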