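import Mathlib
import Pool.Agent.U839.Sv.Crit2

set_option autoImplicit false

/-! # The integral test for the gaps of random sets, part 3 -/

open MeasureTheory ProbabilityTheory Filter Finset Topology

namespace Pool.Agent.U839.Sv

open Pool.Agent.U839.Thin (tlog)

variable {Ω : Type*} [MeasurableSpace Ω] {μ : Measure Ω} [IsProbabilityMeasure μ]

/-- bounded discrepancy -/
def Disc (g : ℕ → ℝ) (D : ℝ) : Prop := (∀ n, 0 ≤ g n ∧ g n ≤ D) ∧
  ∀ n w : ℕ, |∑ m ∈ Ioc n (n + w), g m - w| ≤ D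

theorem reg_of_disc (g ρ : ℕ → ℝ) (D : ℝ) (h : Disc g D) (hρ0 : ∀ n, 0 ≤ ρ n)
    (hρ : ∀ᶠ n : ℕ in atTop, ρ n = g n / Real.log n) : ∃ C : ℝ, 1 ≤ C ∧ Reg ρ C := by
  obtain ⟨h1, h2⟩ := h
  have hD0 : 0 ≤ D := (h1 0).1.trans (h1 0).2
  obtain ⟨n₁, hn₁⟩ := eventually_atTop.1 hρ
  refine ⟨D + 1, by linarith, hρ0, ?_, ?_⟩
  · filter_upwards [hρ, tlog.eventually_ge_atTop 1] with n g1 g2
    rw [g1]
    apply div_le_div_of_nonneg_right _ (by linarith)
    linarith [(h1 n).2]
  · have e1 : ∀ᶠ n : ℕ in atTop, (9 * D + 1) * (Real.log n) ^ 2 + 1 ≤ (n : ℝ) ^ (1 : ℝ) :=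
      log_sq_small (9 * D + 1) 1 (by linarith) one_pos
    filter_upwards [e1, tlog.eventually_ge_atTop 1, eventually_ge_atTop (max n₁ 1)] with n g1 g2 g3
    intro w hw
    have hn0 : (0 : ℝ) < n := by exact_mod_cast (le_max_right n₁ 1).trans g3
    have hn1 : n₁ ≤ n := (le_max_left _ _).trans g3
    rw [Real.rpow_one] at g1
    obtain ⟨L, hL⟩ : ∃ L, L = Real.log n := ⟨_, rfl⟩
    rw [← hL] at g1 g2 hw ⊢
    have hL0 : 0 < L := by linarith
    have e2 : ∑ m ∈ Ioc n (n + w), ρ m = ∑ m ∈ Ioc n (n + w), g m / Real.log m := by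
      apply Finset.sum_congr rfl
      intro m hm
      rw [Finset.mem_Ioc] at hm
      exact hn₁ m (by omega)
    -- comparison with the constant logarithm
    have e3 : |∑ m ∈ Ioc n (n + w), g m / Real.log m - ∑ m ∈ Ioc n (n + w), g m / L| ≤ 1 := by
      rw [← Finset.sum_sub_distrib]
      refine (Finset.abs_sum_le_sum_abs _ _).trans ?_
      have e4 : ∀ m ∈ Ioc n (n + w), |g m / Real.log m - g m / L| ≤ D * (w / (n * L ^ 2)) := by
        intro m hm
        rw [Finset.mem_Ioc] at hm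
        have hm0 : (0 : ℝ) < m := by
          have : (n : ℝ) ≤ m := by exact_mod_cast hm.1.le
          linarith
        have k1 : L ≤ Real.log m := by
          rw [hL]
          exact Real.log_le_log hn0 (by exact_mod_cast hm.1.le)
        have k0 : 0 < Real.log m := by linarith
        have k2 : Real.log m - L ≤ w / n := by
          rw [hL, ← Real.log_div hm0.ne' hn0.ne']
          refine (Real.log_le_sub_one_of_pos (by positivity)).trans ?_
          have k3 : (m : ℝ) ≤ n + w := by exact_mod_cast hm.2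
          rw [div_sub_one hn0.ne']
          gcongr
          linarith
        have k4 : g m / Real.log m - g m / L = -(g m * ((Real.log m - L) / (Real.log m * L))) := by
          field_simp
          ring
        rw [k4, abs_neg, abs_of_nonneg (by
          apply mul_nonneg (h1 m).1
          apply div_nonneg (by linarith) (by positivity))]
        apply mul_le_mul (h1 m).2 _ (by
          apply div_nonneg (by linarith) (by positivity)) hD0
        calc (Real.log m - L) / (Real.log m * L) ≤ (w / n) / (L * L) := by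
              apply div_le_div₀ (by positivity) k2 (by positivity)
              exact mul_le_mul_of_nonneg_right k1 hL0.le
          _ = w / (n * L ^ 2) := by
              rw [div_div]
              congr 1
              ring
      refine (Finset.sum_le_sum e4).trans ?_
      rw [Finset.sum_const, Nat.card_Ioc, nsmul_eq_mul]
      have e5 : ((n + w - n : ℕ) : ℝ) = w := by
        congr 1
        omega
      rw [e5]
      have e6 : (w : ℝ) * (D * (w / (n * L ^ 2))) = D * (w * w) / (n * L ^ 2) := by ring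
      rw [e6, div_le_one (by positivity)]
      have e7 : (w : ℝ) * w ≤ 3 * L ^ 2 * (3 * L ^ 2) := by gcongr
      calc D * ((w : ℝ) * w) ≤ D * (3 * L ^ 2 * (3 * L ^ 2)) := by gcongr
        _ = 9 * D * L ^ 2 * L ^ 2 := by ring
        _ ≤ n * L ^ 2 := by
            apply mul_le_mul_of_nonneg_right _ (by positivity)
            nlinarith [sq_nonneg L]
    have e8 : |∑ m ∈ Ioc n (n + w), g m / L - w / L| ≤ D := by
      rw [← Finset.sum_div, ← sub_div, abs_div, abs_of_pos hL0, div_le_iff₀ hL0]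
      refine (h2 n w).trans ?_
      nlinarith
    rw [e2]
    calc |∑ m ∈ Ioc n (n + w), g m / Real.log m - w / L| =
        |(∑ m ∈ Ioc n (n + w), g m / Real.log m - ∑ m ∈ Ioc n (n + w), g m / L) +
          (∑ m ∈ Ioc n (n + w), g m / L - w / L)| := by ring_nf
      _ ≤ 1 + D := (abs_add_le _ _).trans (add_le_add e3 e8)
      _ = D + 1 := by ring

theorem disc_one : Disc (fun _ => 1) 1 := by
  refine ⟨fun n => ⟨zero_le_one, le_rfl⟩, fun n w => ?_⟩
  rw [Finset.sum_const, Nat.card_Ioc, nsmul_eq_mul, mul_one]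
  have : ((n + w - n : ℕ) : ℝ) = w := by
    congr 1
    omega
  rw [this, sub_self, abs_zero]
  exact zero_le_one

open Classical in
/-- the weights of a sieve by a finite set of primes -/
noncomputable def gS (S : Finset ℕ) (n : ℕ) : ℝ :=
  if ∀ p ∈ S, ¬ p ∣ n then ∏ p ∈ S, (1 - 1 / (p : ℝ))⁻¹ else 0

theorem count_cop (M : ℕ) (hM : 0 < M) (n w : ℕ) :
    |(((Ioc n (n + w)).filter (fun m => M.Coprime m)).card : ℝ) - w * ((M.totient : ℝ) / M)| ≤ M := by
  have hM0 : (0 : ℝ) < M := by exact_mod_cast hM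
  have hφ : (M.totient : ℝ) / M ≤ 1 := by
    rw [div_le_one hM0]
    exact_mod_cast Nat.totient_le M
  have hφ0 : 0 ≤ (M.totient : ℝ) / M := by positivity
  induction w using Nat.strong_induction_on with
  | _ w ih =>
    rcases Nat.lt_or_ge w M with h | h
    · have h1 : (((Ioc n (n + w)).filter (fun m => M.Coprime m)).card : ℝ) ≤ w := by
        have := card_filter_le (Ioc n (n + w)) (fun m => M.Coprime m)
        rw [Nat.card_Ioc] at this
        exact_mod_cast (by omega)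
      have h2 : (w : ℝ) ≤ M := by exact_mod_cast h.le
      have h3 : (0 : ℝ) ≤ w * ((M.totient : ℝ) / M) := by positivity
      have h4 : (w : ℝ) * ((M.totient : ℝ) / M) ≤ w * 1 := by gcongr
      have h5 : (0 : ℝ) ≤ (((Ioc n (n + w)).filter (fun m => M.Coprime m)).card : ℝ) :=
        Nat.cast_nonneg _
      rw [abs_le]
      constructor <;> linarith
    · have h1 := ih (w - M) (by omega)
      have h2 : ((Ioc n (n + w)).filter (fun m => M.Coprime m)).card =
          ((Ioc n (n + (w - M))).filter (fun m => M.Coprime m)).card + M.totient := by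
        have h3 : Ioc n (n + w) = Ioc n (n + (w - M)) ∪ Ioc (n + (w - M)) (n + w) := by
          ext k
          simp only [Finset.mem_union, Finset.mem_Ioc]
          omega
        rw [h3, Finset.filter_union, Finset.card_union_of_disjoint]
        · congr 1
          rw [← Nat.filter_coprime_Ico_eq_totient M (n + (w - M) + 1)]
          apply congrArg Finset.card
          ext k
          simp only [Finset.mem_filter, Finset.mem_Ioc, Finset.mem_Ico]
          constructor
          · rintro ⟨h4, h5⟩; exact ⟨by omega, h5⟩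
          · rintro ⟨h4, h5⟩; exact ⟨by omega, h5⟩
        · rw [Finset.disjoint_left]
          intro k hk1 hk2
          rw [Finset.mem_filter, Finset.mem_Ioc] at hk1 hk2
          omega
      rw [h2]
      have h4 : ((w - M : ℕ) : ℝ) = w - M := by rw [Nat.cast_sub h]
      rw [h4] at h1
      push_cast
      have h5 : (w : ℝ) * ((M.totient : ℝ) / M) = ((w : ℝ) - M) * ((M.totient : ℝ) / M) + M.totient := by
        field_simp
        ring
      rw [h5]
      have h6 : ∀ a b c : ℝ, a + c - (b + c) = a - b := fun a b c => by ring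
      rw [h6]
      exact h1

theorem disc_sieve (S : Finset ℕ) (hS : ∀ p ∈ S, p.Prime) : ∃ D : ℝ, Disc (gS S) D := by
  classical
  obtain ⟨M, hM⟩ : ∃ M, M = ∏ p ∈ S, p := ⟨_, rfl⟩
  have hMpos : 0 < M := by rw [hM]; exact Finset.prod_pos fun p hp => (hS p hp).pos
  have hM0 : (0 : ℝ) < M := by exact_mod_cast hMpos
  obtain ⟨B, hB⟩ : ∃ B, B = ∏ p ∈ S, (1 - 1 / (p : ℝ)) := ⟨_, rfl⟩
  have hBpos : 0 < B := by rw [hB]; exact prod_pos' hS
  have hφ : (M.totient : ℝ) / M = B := by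
    have h1 := Nat.totient_eq_mul_prod_factors M
    have h2 : M.primeFactors = S := by rw [hM]; exact Nat.primeFactors_prod hS
    rw [h2] at h1
    have h3 : (M.totient : ℝ) = M * ∏ p ∈ S, (1 - (p : ℝ)⁻¹) := by
      have h31 := congrArg (fun x : ℚ => (x : ℝ)) h1
      push_cast at h31
      exact h31
    rw [h3, mul_div_cancel_left₀ _ hM0.ne', hB]
    simp only [one_div]
  have hcop : ∀ m : ℕ, (∀ p ∈ S, ¬ p ∣ m) ↔ M.Coprime m := by
    intro m
    rw [hM, Nat.coprime_prod_left_iff]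
    constructor
    · intro h p hp
      exact ((hS p hp).coprime_iff_not_dvd).2 (h p hp)
    · intro h p hp
      exact ((hS p hp).coprime_iff_not_dvd).1 (h p hp)
  have hBinv : ∏ p ∈ S, (1 - 1 / (p : ℝ))⁻¹ = B⁻¹ := by rw [hB, Finset.prod_inv_distrib]
  have hB1 : 0 < B⁻¹ := inv_pos.2 hBpos
  refine ⟨B⁻¹ * M, fun n => ?_, fun n w => ?_⟩
  · unfold gS
    rw [hBinv]
    have hM1 : (1 : ℝ) ≤ M := by exact_mod_cast hMpos
    split_ifs
    · exact ⟨hB1.le, by nlinarith⟩
    · exact ⟨le_rfl, by positivity⟩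
  · have h1 : ∑ m ∈ Ioc n (n + w), gS S m =
        B⁻¹ * (((Ioc n (n + w)).filter (fun m => M.Coprime m)).card : ℝ) := by
      unfold gS
      rw [hBinv, ← Finset.sum_filter, Finset.sum_const, nsmul_eq_mul, mul_comm]
      congr 3
      ext m
      simp only [Finset.mem_filter]
      rw [hcop m]
    have h2 := count_cop M hMpos n w
    rw [hφ] at h2
    rw [h1]
    have h3 : B⁻¹ * (((Ioc n (n + w)).filter (fun m => M.Coprime m)).card : ℝ) - w =
        B⁻¹ * ((((Ioc n (n + w)).filter (fun m => M.Coprime m)).card : ℝ) - w * B) := by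
      field_simp
    rw [h3, abs_mul, abs_of_pos hB1]
    gcongr

/-- the number `q_k` -/
noncomputable def qk (Q : Set ℕ) (k : ℕ) : ℕ := Nat.nth (· ∈ Q) k

omit [MeasurableSpace Ω] in
theorem mem_AA_iff (E : ℕ → Set Ω) (ω : Ω) (hQ : {n | ω ∈ E n}.Infinite) (w : ℕ → ℕ) (k : ℕ) :
    ω ∈ AA E w (qk {n | ω ∈ E n} k) ↔
      qk {n | ω ∈ E n} k + w (qk {n | ω ∈ E n} k) < qk {n | ω ∈ E n} (k + 1) := by
  classical
  obtain ⟨Q, hQd⟩ : ∃ Q : Set ℕ, Q = {n | ω ∈ E n} := ⟨_, rfl⟩
  rw [← hQd] at hQ ⊢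
  have hQ' : (Set.ofPred (· ∈ Q)).Infinite := hQ
  have hmono := Nat.nth_strictMono hQ'
  have hmem : ∀ k, qk Q k ∈ Q := fun k => Nat.nth_mem_of_infinite hQ' k
  have hE : ∀ n, n ∈ Q ↔ ω ∈ E n := fun n => by rw [hQd]; rfl
  unfold AA
  simp only [Set.mem_inter_iff, Set.mem_iInter, Finset.mem_Ioc, Set.mem_compl_iff]
  constructor
  · rintro ⟨-, h2⟩
    by_contra hcon
    push Not at hcon
    exact h2 (qk Q (k + 1)) ⟨hmono (Nat.lt_succ_self k), hcon⟩ ((hE _).1 (hmem _))
  · intro h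
    refine ⟨(hE _).1 (hmem k), fun m hm hmE => ?_⟩
    have h1 : m ∈ Q := (hE m).2 hmE
    have h3 : k < Nat.count (· ∈ Q) m := (Nat.lt_nth_iff_count_lt hQ').2 hm.1
    have h4 : Nat.nth (· ∈ Q) (Nat.count (· ∈ Q) m) = m := Nat.nth_count (p := (· ∈ Q)) h1
    have h5 : qk Q (k + 1) ≤ m := by
      rw [← h4]
      exact hmono.monotone h3
    omega

theorem ff_zero_diverges : ¬ Summable (ff (fun _ => 0)) := by
  intro h
  apply l3_diverges
  refine Summable.of_norm_bounded h ?_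
  intro n
  rw [Real.norm_of_nonneg (ff_nonneg _ _)]
  unfold ff
  apply div_le_div_of_nonneg_right _ (mul_nonneg (Nat.cast_nonneg n) (Real.log_natCast_nonneg n))
  apply Real.exp_le_exp.2
  rw [neg_le_neg_iff]
  unfold l3
  rw [one_mul]
  have h0 : (16 : ℝ) ≤ ((max n 16 : ℕ) : ℝ) := by exact_mod_cast le_max_right n 16
  have h2 : Real.log 16 ≤ Real.log ((max n 16 : ℕ) : ℝ) := Real.log_le_log (by norm_num) h0
  have h3 := log16.2
  have h5 : 1 < Real.log (Real.log ((max n 16 : ℕ) : ℝ)) := by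
    rw [← Real.log_exp 1]
    apply Real.log_lt_log (Real.exp_pos 1)
    linarith
  exact (Real.log_pos h5).le

theorem inf_el {E : ℕ → Set Ω} (hm : ∀ n, MeasurableSet (E n)) (hE : iIndepSet E μ)
    (C : ℝ) (hC : 1 ≤ C) (hR : Reg (fun n => μ.real (E n)) C) :
    ∀ᵐ ω ∂μ, {n | ω ∈ E n}.Infinite := by
  filter_upwards [test_div hm hE C hC hR (fun _ => 0) monotone_const ff_zero_diverges] with ω hω
  rw [Set.infinite_iff_exists_gt]
  intro a
  obtain ⟨n, h1, h2⟩ := (hω.and_eventually (eventually_gt_atTop a)).exists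
  exact ⟨n, h1.1, h2⟩

/-- the integral test, for consecutive elements -/
theorem gap_conv {E : ℕ → Set Ω} (hm : ∀ n, MeasurableSet (E n)) (hE : iIndepSet E μ)
    (C : ℝ) (hC : 1 ≤ C) (hR : Reg (fun n => μ.real (E n)) C) (φ : ℕ → ℝ) (hφ : Monotone φ)
    (h : Summable (ff φ)) : ∀ᵐ ω ∂μ, ∀ᶠ k in atTop,
      ((qk {n | ω ∈ E n} (k + 1) : ℝ) - qk {n | ω ∈ E n} k) ≤
        (Real.log (qk {n | ω ∈ E n} k)) ^ 2 + φ (qk {n | ω ∈ E n} k) * Real.log (qk {n | ω ∈ E n} k) := by
  filter_upwards [test_conv hm hE C hC hR φ hφ h, inf_el hm hE C hC hR] with ω h1 h2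
  have h2' : (Set.ofPred (· ∈ {n | ω ∈ E n})).Infinite := h2
  have hmono : StrictMono (qk {n | ω ∈ E n}) := Nat.nth_strictMono h2'
  have ht : Tendsto (qk {n | ω ∈ E n}) atTop atTop := hmono.tendsto_atTop
  have ht2 : Tendsto (fun k => Real.log (qk {n | ω ∈ E n} k)) atTop atTop := tlog.comp ht
  filter_upwards [ht.eventually h1, ht2.eventually_ge_atTop (|φ 0| + 1)] with k g1 g2
  rw [mem_AA_iff E ω h2] at g1
  push Not at g1
  obtain ⟨q, hq⟩ : ∃ q, q = qk {n | ω ∈ E n} k := ⟨_, rfl⟩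
  rw [← hq] at g1 g2 ⊢
  have h3 : (qk {n | ω ∈ E n} (k + 1) : ℝ) ≤ q + wf φ q := by exact_mod_cast g1
  have h4 : 0 ≤ (Real.log q) ^ 2 + φ q * Real.log q := by
    have h5 : φ 0 ≤ φ q := hφ (Nat.zero_le q)
    have h6 := neg_abs_le (φ 0)
    have h7 := abs_nonneg (φ 0)
    nlinarith
  have h5 : (wf φ q : ℝ) ≤ (Real.log q) ^ 2 + φ q * Real.log q := Nat.floor_le h4
  linarith

theorem gap_div {E : ℕ → Set Ω} (hm : ∀ n, MeasurableSet (E n)) (hE : iIndepSet E μ)
    (C : ℝ) (hC : 1 ≤ C) (hR : Reg (fun n => μ.real (E n)) C) (φ : ℕ → ℝ) (hφ : Monotone φ)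
    (h : ¬ Summable (ff φ)) : ∀ᵐ ω ∂μ, ∃ᶠ k in atTop,
      (Real.log (qk {n | ω ∈ E n} k)) ^ 2 + φ (qk {n | ω ∈ E n} k) * Real.log (qk {n | ω ∈ E n} k) <
        ((qk {n | ω ∈ E n} (k + 1) : ℝ) - qk {n | ω ∈ E n} k) := by
  classical
  filter_upwards [test_div hm hE C hC hR φ hφ h, inf_el hm hE C hC hR] with ω h1 h2
  have h2' : (Set.ofPred (· ∈ {n | ω ∈ E n})).Infinite := h2
  have hmono : StrictMono (qk {n | ω ∈ E n}) := Nat.nth_strictMono h2'
  rw [frequently_atTop] at h1 ⊢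
  intro a
  obtain ⟨n, h3, h4⟩ := h1 (qk {n | ω ∈ E n} a)
  have hn : n ∈ {n | ω ∈ E n} := h4.1
  obtain ⟨k, hk⟩ : ∃ k, qk {n | ω ∈ E n} k = n :=
    ⟨Nat.count (· ∈ {n | ω ∈ E n}) n, Nat.nth_count (p := (· ∈ {n | ω ∈ E n})) hn⟩
  refine ⟨k, ?_, ?_⟩
  · rw [← hk] at h3
    exact (hmono.le_iff_le).1 h3
  · rw [← hk, mem_AA_iff E ω h2] at h4
    obtain ⟨q, hq⟩ : ∃ q, q = qk {n | ω ∈ E n} k := ⟨_, rfl⟩
    rw [← hq] at h4 ⊢
    have h5 : ((q : ℝ) + wf φ q) + 1 ≤ qk {n | ω ∈ E n} (k + 1) := by exact_mod_cast h4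
    have h6 : (Real.log q) ^ 2 + φ q * Real.log q < wf φ q + 1 := Nat.lt_floor_add_one _
    linarith

end Pool.Agent.U839.Sv
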